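import Pool.Agent.Helper578.JD.Grp



namespace Pool.Agent.Helper578.JD

open Encodable Oracle RE Defs

/-! ### auxiliary lemmas -/

theorem q_coprime {i j : ℕ} (h : i ≠ j) : Nat.Coprime (q i) (q j) := by
  have := Nat.coprime_fermatNumber_fermatNumber h
  simpa [q, Nat.fermatNumber] using this

theorem q_gt (j : ℕ) : 1 < q j := by
  unfold q
  have : 0 < 2 ^ (2 ^ j) := by positivity
  omega

theorem one_mem_grp (A : Set ℕ) : (1 : ℚ) ∈ grp A := ⟨[], by simp, 1, by simp⟩

theorem inv_mem_grp {A : Set ℕ} {j : ℕ} (hj : j ∈ join A Aᶜ) : (1 / (q j : ℚ)) ∈ grp A := by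
  refine ⟨[j], by simpa using hj, 1, ?_⟩
  have : (q j : ℚ) ≠ 0 := by
    have := q_gt j
    positivity
  simp only [List.map_cons, List.map_nil, List.prod_cons, List.prod_nil, mul_one, Int.cast_one]
  field_simp

/-- the distinguished element -/
noncomputable def gk (A : ℕ → Set ℕ) (k : ℕ) : DirectSum ℕ fun i => grp (A i) :=
  DirectSum.of (fun i => grp (A i)) k ⟨1, one_mem_grp _⟩

theorem div_iff (A : ℕ → Set ℕ) (k j : ℕ) :
    (∃ h : DirectSum ℕ fun i => grp (A i), q j • h = gk A k) ↔ j ∈ join (A k) (A k)ᶜ := by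
  constructor
  · rintro ⟨h, hh⟩
    have h1 : q j • (h k) = (⟨1, one_mem_grp _⟩ : grp (A k)) := by
      have h2 := congrArg (fun f : DirectSum ℕ fun i => grp (A i) => f k) hh
      simp only [gk, DirectSum.of_eq_same] at h2
      rw [← h2]
      rfl
    have h2 : (q j : ℚ) * ((h k : grp (A k)) : ℚ) = 1 := by
      have h3 := congrArg (fun x : grp (A k) => (x : ℚ)) h1
      simpa using h3
    obtain ⟨l, hl, z, hz⟩ := (h k).2
    by_contra hj
    have h3 : (((l.map q).prod : ℕ) : ℚ) = q j * z := by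
      rw [← hz]
      calc (((l.map q).prod : ℕ) : ℚ) = (((l.map q).prod : ℕ) : ℚ) * 1 := by rw [mul_one]
        _ = (((l.map q).prod : ℕ) : ℚ) * ((q j : ℚ) * ((h k : grp (A k)) : ℚ)) := by rw [h2]
        _ = _ := by ring
    have h4 : ((q j : ℕ) : ℤ) ∣ (((l.map q).prod : ℕ) : ℤ) := by
      refine ⟨z, ?_⟩
      generalize (l.map q).prod = N at h3
      exact_mod_cast h3
    have h5 : q j ∣ (l.map q).prod := by exact_mod_cast h4
    have h6 : Nat.Coprime (q j) (l.map q).prod := by
      apply Nat.coprime_list_prod_right_iff.2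
      intro n hn
      obtain ⟨i, hi, rfl⟩ := List.mem_map.1 hn
      apply q_coprime
      rintro rfl
      exact hj (hl _ hi)
    have h7 := Nat.Coprime.eq_one_of_dvd h6 h5
    have h8 := q_gt j
    omega
  · intro hj
    refine ⟨DirectSum.of (fun i => grp (A i)) k ⟨1 / (q j : ℚ), inv_mem_grp hj⟩, ?_⟩
    unfold gk
    rw [← map_nsmul]
    congr 1
    apply Subtype.ext
    have : (q j : ℚ) ≠ 0 := by
      have := q_gt j
      positivity
    simp only [AddSubmonoidClass.coe_nsmul, nsmul_eq_mul]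
    field_simp

/-- divisibility in terms of the diagram -/
def DivP (D : Set ℕ) (c m : ℕ) : Prop :=
  ∃ L : List ℕ, L[m - 1]? = some c ∧ ∀ i < m - 1, ∃ t : ℕ × ℕ × ℕ, L[0]? = some t.1 ∧
    L[i]? = some t.2.1 ∧ L[i + 1]? = some t.2.2 ∧ Nat.pair t.2.1 (Nat.pair t.1 t.2.2) ∈ D

theorem divP_iff {G : Type} [AddCommGroup G] {D : Set ℕ} {op : ℕ → ℕ → ℕ} (e : G ≃ ℕ)
    (h1 : ∀ x y, e (x + y) = op (e x) (e y))
    (h2 : D = {n | op n.unpair.1 n.unpair.2.unpair.1 = n.unpair.2.unpair.2}) (g : G) {m : ℕ}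
    (hm : 1 ≤ m) : DivP D (e g) m ↔ ∃ h : G, m • h = g := by
  have hD : ∀ v u w, Nat.pair v (Nat.pair u w) ∈ D ↔ op v u = w := by
    intro v u w
    rw [h2]
    show op (Nat.pair v (Nat.pair u w)).unpair.1 (Nat.pair v (Nat.pair u w)).unpair.2.unpair.1 =
      (Nat.pair v (Nat.pair u w)).unpair.2.unpair.2 ↔ _
    simp only [Nat.unpair_pair]
  constructor
  · rintro ⟨L, hL1, hL2⟩
    have hlen : m - 1 < L.length := by
      by_contra hc
      rw [List.getElem?_eq_none (not_lt.1 hc)] at hL1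
      cases hL1
    have h0 : L[0]? = some L[0] := List.getElem?_eq_getElem (by omega)
    set u := L[0] with hu
    have key : ∀ i < m, L[i]? = some (e ((i + 1) • e.symm u)) := by
      intro i
      induction i with
      | zero =>
        intro _
        rw [h0, zero_add, one_smul, e.apply_symm_apply]
      | succ i ih =>
        intro hi
        obtain ⟨t, ht1, ht2, ht3, ht4⟩ := hL2 i (by omega)
        rw [hD] at ht4
        rw [h0] at ht1
        rw [ih (by omega)] at ht2
        have e1 : u = t.1 := Option.some.inj ht1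
        have e2 : e ((i + 1) • e.symm u) = t.2.1 := Option.some.inj ht2
        rw [ht3, ← ht4, ← e1, ← e2]
        congr 1
        rw [succ_nsmul _ (i + 1), h1, e.apply_symm_apply]
    have h3 := key (m - 1) (by omega)
    rw [hL1] at h3
    have h4 := e.injective (Option.some.inj h3)
    refine ⟨e.symm u, ?_⟩
    rw [h4]
    congr 1
    omega
  · rintro ⟨h, hh⟩
    refine ⟨(List.range m).map (fun i => e ((i + 1) • h)), ?_, ?_⟩
    · rw [List.getElem?_map, List.getElem?_range (by omega)]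
      simp only [Option.map_some]
      have : m - 1 + 1 = m := by omega
      rw [this, hh]
    · intro i hi
      refine ⟨(e h, e ((i + 1) • h), e ((i + 1 + 1) • h)), ?_, ?_, ?_, ?_⟩
      · rw [List.getElem?_map, List.getElem?_range (by omega)]
        simp
      · rw [List.getElem?_map, List.getElem?_range (by omega)]
        rfl
      · rw [List.getElem?_map, List.getElem?_range (by omega)]
        rfl
      · rw [hD]
        simp only
        rw [succ_nsmul _ (i + 1), h1]

theorem DivP_re (D : Set ℕ) (c : ℕ) {f : ℕ → ℕ} (hf : Computable f) :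
    REIn D fun n => DivP D c (f n) := by
  unfold DivP
  refine REIn.ex (S := fun n L => L[f n - 1]? = some c ∧ ∀ i < f n - 1, ∃ t : ℕ × ℕ × ℕ,
    L[0]? = some t.1 ∧ L[i]? = some t.2.1 ∧ L[i + 1]? = some t.2.2 ∧
    Nat.pair t.2.1 (Nat.pair t.1 t.2.2) ∈ D) ?_
  refine REIn.and (REIn.of_re (RE.eq ?_ ?_)) ?_
  · have : Computable (fun x : ℕ × List ℕ => x.2[f x.1 - 1]?) := by fun_prop
    exact this
  · fun_prop
  refine REIn.all_lt (S := fun (x : ℕ × List ℕ) i => ∃ t : ℕ × ℕ × ℕ,
    x.2[0]? = some t.1 ∧ x.2[i]? = some t.2.1 ∧ x.2[i + 1]? = some t.2.2 ∧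
    Nat.pair t.2.1 (Nat.pair t.1 t.2.2) ∈ D) (f := fun x : ℕ × List ℕ => f x.1 - 1) ?_ (by fun_prop)
  refine REIn.ex (S := fun (y : (ℕ × List ℕ) × ℕ) (t : ℕ × ℕ × ℕ) =>
    y.1.2[0]? = some t.1 ∧ y.1.2[y.2]? = some t.2.1 ∧ y.1.2[y.2 + 1]? = some t.2.2 ∧
    Nat.pair t.2.1 (Nat.pair t.1 t.2.2) ∈ D) ?_
  refine REIn.and (REIn.of_re (RE.eq ?_ ?_)) (REIn.and (REIn.of_re (RE.eq ?_ ?_))
    (REIn.and (REIn.of_re (RE.eq ?_ ?_)) (REIn.mem ?_)))
  all_goals fun_prop

theorem two_pow_comp : Computable (fun n : ℕ => 2 ^ n) := by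
  have h : Computable (fun n : ℕ => Nat.rec (motive := fun _ => ℕ) 1 (fun _ y => 2 * y) n) := by
    refine Computable.nat_rec (f := fun n : ℕ => n) (g := fun _ => 1)
      (h := fun _ y => 2 * y.2) Computable.id (Computable.const 1) ?_
    exact (cmul (Computable.const 2) (Computable.snd.comp Computable.snd)).to₂
  refine h.of_eq (fun n => ?_)
  induction n with
  | zero => rfl
  | succ n ih =>
    simp only [ih, pow_succ]
    ring

theorem q_comp {f : ℕ → ℕ} (hf : Computable f) : Computable (fun n => q (f n)) := by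
  unfold q
  exact cadd (two_pow_comp.comp (two_pow_comp.comp hf)) (Computable.const 1)

theorem decode (A : ℕ → Set ℕ) {D : Set ℕ} (h : IsCopy (DirectSum ℕ fun i => grp (A i)) D)
    (k : ℕ) : Red (A k) D := by
  obtain ⟨op, e, h1, h2⟩ := h
  rw [Red_iff]
  have key : ∀ j, DivP D (e (gk A k)) (q j) ↔ j ∈ join (A k) (A k)ᶜ := by
    intro j
    rw [divP_iff e h1 h2 (gk A k) (q_gt j).le]
    exact div_iff A k j
  constructor
  · refine (DivP_re D (e (gk A k)) (q_comp (f := fun n => 2 * n) (by fun_prop))).of_eq fun n => ?_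
    rw [key, mem_join_even]
  · refine (DivP_re D (e (gk A k)) (q_comp (f := fun n => 2 * n + 1) (by fun_prop))).of_eq
      fun n => ?_
    rw [key, mem_join_odd]
    rfl

end Pool.Agent.Helper578.JD
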