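import Mathlib

/-!
The definitions used in the statements: oracles, the jump, the jump hierarchy along a well-founded
relation, diagrams of copies of a group, and jump degrees.
-/

namespace Pool.Agent.Helper578.JD

/-- The characteristic function of a set of natural numbers, with natural number values. -/
noncomputable def Defs.chiN (A : Set ℕ) (n : ℕ) : ℕ := by
  classical exact if n ∈ A then 1 else 0

/-- The characteristic function of a set of natural numbers, as an oracle. -/
noncomputable def Defs.chi (A : Set ℕ) : ℕ →. ℕ := fun n => Part.some (chiN A n)

/-- The finite information `c` (positive part, negative part) is correct for `A`. -/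
def Oracle.Ok (A : Set ℕ) (c : List ℕ × List ℕ) : Prop := (∀ x ∈ c.1, x ∈ A) ∧ ∀ x ∈ c.2, x ∉ A

open Encodable Oracle Defs
open Nat.Partrec (Code)

/-- Finite information about a set: numbers claimed to be inside, numbers claimed to be outside. -/
abbrev Info := List ℕ × List ℕ

/-- `x` is in the `e`-th computably enumerable set. -/
def W (e x : ℕ) : Prop := ((Denumerable.ofNat Code e).eval x).Dom

/-- The Turing jump of `A`: the set of all `e` such that the `e`-th computably enumerable set of
finite pieces of information contains one which is correct for `A`. -/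
def jump (A : Set ℕ) : Set ℕ := {e | ∃ c : Info, Ok A c ∧ W e (encode c)}

/-- The join of two sets. -/
def join (A B : Set ℕ) : Set ℕ := {n | (n % 2 = 0 ∧ n / 2 ∈ A) ∨ (n % 2 = 1 ∧ n / 2 ∈ B)}

/-- The jump hierarchy along a well-founded relation `R`: the set at `b` is the join of `X` and
the jumps of all the sets at places below `b`. -/
noncomputable def H {R : ℕ → ℕ → Prop} (hR : WellFounded R) (X : Set ℕ) : ℕ → Set ℕ :=
  hR.fix fun b ih => join X {n | ∃ h : R n.unpair.1 b, n.unpair.2 ∈ jump (ih n.unpair.1 h)}

/-- `D` is the atomic diagram of a group with universe `ℕ` which is isomorphic to `G`: for some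
binary operation `op` on `ℕ` and some isomorphism `e` from `G` to `(ℕ, op)`, the set `D` consists of
the codes of all triples `(a, b, c)` with `op a b = c`. -/
def IsCopy (G : Type) [AddCommGroup G] (D : Set ℕ) : Prop :=
  ∃ (op : ℕ → ℕ → ℕ) (e : G ≃ ℕ), (∀ x y, e (x + y) = op (e x) (e y)) ∧
    D = {n | op n.unpair.1 n.unpair.2.unpair.1 = n.unpair.2.unpair.2}

/-- The Turing degree of a set. -/
noncomputable def deg (A : Set ℕ) : TuringDegree := toAntisymmetrization TuringReducible (chi A)

/-- `d` is the jump degree of `G` at the place `b` of the well-founded relation `R`: it is the least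
element of the set of the degrees of the `b`-th jumps of the atomic diagrams of the copies of `G`
with universe `ℕ`. -/
def IsJumpDegree {R : ℕ → ℕ → Prop} (hR : WellFounded R) (b : ℕ) (G : Type) [AddCommGroup G]
    (d : TuringDegree) : Prop :=
  IsLeast {e | ∃ D, IsCopy G D ∧ e = deg (H hR D b)} d

/-- `d` is the proper jump degree of `G` at the place `a`: it is the jump degree at `a`, and there
is no jump degree at any earlier place. -/
def IsProperJumpDegree {R : ℕ → ℕ → Prop} (hR : WellFounded R) (a : ℕ) (G : Type)
    [AddCommGroup G] (d : TuringDegree) : Prop :=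
  IsJumpDegree hR a G d ∧ ∀ b, R b a → ¬ ∃ e, IsJumpDegree hR b G e

end Pool.Agent.Helper578.JD
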