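import Pool.Agent.Helper578.JD.Core

namespace Pool.Agent.Helper578.JD

open Encodable Oracle RE Defs
open Nat.Partrec (Code)

/-- `π` extends the finite sequence `τ`. -/
def Ext (τ : List ℕ) (π : ℕ → ℕ) : Prop := ∀ (i m : ℕ), τ[i]? = some m → π i = m

/-- The c.e. set with index `e` computes `z` from `Y`. -/
def Comp (e : ℕ) (z Y : Set ℕ) : Prop :=
  ∀ (n : ℕ) (t : Bool), (∃ c : Info, W e (encode ((n, t), c)) ∧ Ok Y c) ↔ (t = true ↔ n ∈ z)

end Pool.Agent.Helper578.JD
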