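import Pool.Agent.Helper578.JD.Sanity

/-!
The main result in terms of degrees.
-/

namespace Pool.Agent.Helper578.JD

open Defs

variable {R : ℕ → ℕ → Prop}

theorem deg_le {A B : Set ℕ} : deg A ≤ deg B ↔ Red A B := Iff.rfl

theorem deg_eq {A B : Set ℕ} (h1 : Red A B) (h2 : Red B A) : deg A = deg B :=
  le_antisymm (deg_le.2 h1) (deg_le.2 h2)

theorem main_degrees (hR : WellFounded R) (hRc : ComputablePred fun p : ℕ × ℕ => R p.1 p.2)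
    (htr : ∀ x y z, R x y → R y z → R x z) (a : ℕ) : ∃ S : ℕ → AddSubgroup ℚ,
    IsProperJumpDegree hR a (DirectSum ℕ fun i => S i) (deg (H hR ∅ a)) := by
  obtain ⟨x, ⟨D, h1, h2⟩, h3, h4⟩ := main_sets hR hRc htr a
  refine ⟨fun i => grp (col x i), ⟨⟨D, h1, ?_⟩, ?_⟩, ?_⟩
  · exact deg_eq (h3 D h1) h2
  · rintro e ⟨D', h5, rfl⟩
    exact deg_le.2 (h3 D' h5)
  · rintro b hb ⟨e, ⟨D', h5, rfl⟩, h6⟩
    exact h4 b hb ⟨D', h5, fun D'' h7 => deg_le.1 (h6 ⟨D'', h7, rfl⟩)⟩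

end Pool.Agent.Helper578.JD
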