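import Pool.Agent.Helper578.JD.Core

/-!
Completely decomposable groups attached to sequences of sets.
-/

namespace Pool.Agent.Helper578.JD

open Encodable Oracle RE Defs

/-- Pairwise coprime numbers (the Fermat numbers). -/
def q (j : ℕ) : ℕ := 2 ^ (2 ^ j) + 1

/-- The subgroup of `ℚ` attached to a set `A`: all `x` such that `N x` is an integer for some product
`N` of numbers `q j` with `j` in the join of `A` and its complement. -/
def grp (A : Set ℕ) : AddSubgroup ℚ where
  carrier := {x | ∃ l : List ℕ, (∀ j ∈ l, j ∈ join A Aᶜ) ∧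
    ∃ z : ℤ, (((l.map q).prod : ℕ) : ℚ) * x = z}
  zero_mem' := ⟨[], by simp, 0, by simp⟩
  add_mem' := by
    rintro x y ⟨l, hl, z, hz⟩ ⟨l', hl', z', hz'⟩
    refine ⟨l ++ l', ?_, z * ((l'.map q).prod : ℕ) + z' * ((l.map q).prod : ℕ), ?_⟩
    · intro j hj
      rcases List.mem_append.1 hj with h | h
      exacts [hl j h, hl' j h]
    · rw [List.map_append, List.prod_append]
      generalize (l.map q).prod = N at *
      generalize (l'.map q).prod = M at *
      push_cast
      rw [← hz, ← hz']
      ring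
  neg_mem' := by
    rintro x ⟨l, hl, z, hz⟩
    refine ⟨l, hl, -z, ?_⟩
    rw [mul_neg, hz]
    push_cast
    rfl

theorem IsCopy.congr {G G' : Type} [AddCommGroup G] [AddCommGroup G'] {D : Set ℕ}
    (h : IsCopy G D) (f : G' ≃+ G) : IsCopy G' D := by
  obtain ⟨op, e, h1, h2⟩ := h
  exact ⟨op, f.toEquiv.trans e, fun x y => by simp [h1], h2⟩

theorem copy_perm (A : ℕ → Set ℕ) (π : ℕ ≃ ℕ) {D : Set ℕ}
    (h : IsCopy (DirectSum ℕ fun i => grp (A (π i))) D) :
    IsCopy (DirectSum ℕ fun i => grp (A i)) D := by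
  have f := DirectSum.equivCongrLeft (β := fun i => grp (A i)) π.symm
  exact h.congr f

end Pool.Agent.Helper578.JD
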