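import Pool.Agent.Helper578.JD.Core



namespace Pool.Agent.Helper578.JD

open Encodable Oracle RE Defs
open Nat.Partrec (Code)

theorem exists_gt_list (l : List ℕ) : ∃ k, ∀ y ∈ l, y < k := by
  refine ⟨l.sum + 1, fun y hy => ?_⟩
  have := List.le_sum_of_mem hy
  omega

theorem dens {x Z : Set ℕ} (h : OneGen x Z) (r : Info) (hr : Cons r) (F : List ℕ) :
    ∃ k, k ∉ F ∧ Ok (col x k) r := by
  have hV : REIn Z (fun q : Info => ∃ k, k ∉ F ∧ (∀ m ∈ r.1, Nat.pair k m ∈ q.1) ∧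
      (∀ m ∈ r.2, Nat.pair k m ∈ q.2)) := by
    apply REIn.of_re
    refine RE.ex (p := fun (q : Info) k => k ∉ F ∧ (∀ m ∈ r.1, Nat.pair k m ∈ q.1) ∧
      (∀ m ∈ r.2, Nat.pair k m ∈ q.2)) ?_
    refine RE.and (RE.not_mem_list (by fun_prop) (by fun_prop)) (RE.and ?_ ?_)
    · exact RE.all_mem (p := fun (y : Info × ℕ) m => Nat.pair y.2 m ∈ y.1.1) (l := fun _ => r.1)
        (RE.mem_list (by fun_prop) (by fun_prop)) (by fun_prop)
    · exact RE.all_mem (p := fun (y : Info × ℕ) m => Nat.pair y.2 m ∈ y.1.2) (l := fun _ => r.2)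
        (RE.mem_list (by fun_prop) (by fun_prop)) (by fun_prop)
  rcases h _ hV with ⟨p, hp, k, hk, h1, h2⟩ | ⟨p, hp, hq⟩
  · exact ⟨k, hk, fun m hm => hp.1 _ (h1 m hm), fun m hm => hp.2 _ (h2 m hm)⟩
  · exfalso
    obtain ⟨k, hk⟩ := exists_gt_list (F ++ (p.1 ++ p.2).map (fun y => y.unpair.1))
    have hkF : k ∉ F := fun h => lt_irrefl _ (hk k (List.mem_append_left _ h))
    have hkp : ∀ m, Nat.pair k m ∉ p.1 ++ p.2 := by
      intro m hm
      have := hk k (List.mem_append_right _ (List.mem_map.2 ⟨_, hm, by simp⟩))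
      exact lt_irrefl _ this
    refine hq (r.1.map (Nat.pair k ·), r.2.map (Nat.pair k ·)) ⟨k, hkF, fun m hm =>
      List.mem_map.2 ⟨m, hm, rfl⟩, fun m hm => List.mem_map.2 ⟨m, hm, rfl⟩⟩ ?_
    intro y h1 h2
    simp only [app, List.mem_append, List.mem_map] at h1 h2
    rcases h1 with h1 | ⟨m, hm, rfl⟩
    · rcases h2 with h2 | ⟨m', hm', rfl⟩
      · exact okCons hp y h1 h2
      · exact hkp m' (List.mem_append_left _ h1)
    · rcases h2 with h2 | ⟨m', hm', h3⟩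
      · exact hkp m (List.mem_append_right _ h2)
      · have := (Nat.pair_eq_pair.1 h3).2
        subst this
        exact hr _ hm hm'

/-- Verified information about the join of the columns in `σ` and `Z`. -/
def Vf (Z : Set ℕ) (σ : List ℕ) (q c : Info) : Prop :=
  (∀ y ∈ c.1, (y % 2 = 0 ∧ y / 2 ∈ q.1 ∧ (y/2).unpair.1 ∈ σ) ∨ (y % 2 = 1 ∧ y / 2 ∈ Z)) ∧
  (∀ y ∈ c.2, (y % 2 = 0 ∧ (y / 2 ∈ q.2 ∨ (y/2).unpair.1 ∉ σ)) ∨ (y % 2 = 1 ∧ y / 2 ∉ Z))

theorem cmod2 {α : Type*} [Primcodable α] {f : α → ℕ} (hf : Computable f) :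
    Computable (fun x => f x % 2) :=
  (Primrec.nat_mod.to_comp).comp hf (Computable.const 2)

theorem cdiv2 {α : Type*} [Primcodable α] {f : α → ℕ} (hf : Computable f) :
    Computable (fun x => f x / 2) :=
  (Primrec.nat_div.to_comp).comp hf (Computable.const 2)

theorem Vf_re (Z : Set ℕ) (σ : List ℕ) : REIn Z (fun z : Info × Info => Vf Z σ z.1 z.2) := by
  refine REIn.and ?_ ?_
  · refine REIn.all_mem (S := fun (z : Info × Info) y => (y % 2 = 0 ∧ y / 2 ∈ z.1.1 ∧ (y/2).unpair.1 ∈ σ) ∨ (y % 2 = 1 ∧ y / 2 ∈ Z)) (l := fun z => z.2.1) ?_ (by fun_prop)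
    have h1 : Computable fun x : (Info × Info) × ℕ => x.2 % 2 := cmod2 (by fun_prop)
    have h2 : Computable fun x : (Info × Info) × ℕ => x.2 / 2 := cdiv2 (by fun_prop)
    refine REIn.or (REIn.of_re ?_) (REIn.and (REIn.of_re ?_) ?_)
    · refine RE.and (RE.eq h1 (by fun_prop)) (RE.and (RE.mem_list h2 (by fun_prop)) (RE.mem_list (by fun_prop) (by fun_prop)))
    · exact RE.eq h1 (by fun_prop)
    · exact REIn.mem h2
  · refine REIn.all_mem (S := fun (z : Info × Info) y => (y % 2 = 0 ∧ (y / 2 ∈ z.1.2 ∨ (y/2).unpair.1 ∉ σ)) ∨ (y % 2 = 1 ∧ y / 2 ∉ Z)) (l := fun z => z.2.2) ?_ (by fun_prop)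
    have h1 : Computable fun x : (Info × Info) × ℕ => x.2 % 2 := cmod2 (by fun_prop)
    have h2 : Computable fun x : (Info × Info) × ℕ => x.2 / 2 := cdiv2 (by fun_prop)
    refine REIn.or (REIn.of_re ?_) (REIn.and (REIn.of_re ?_) ?_)
    · refine RE.and (RE.eq h1 (by fun_prop)) (RE.or (RE.mem_list h2 (by fun_prop)) (RE.not_mem_list (by fun_prop) (by fun_prop)))
    · exact RE.eq h1 (by fun_prop)
    · exact REIn.not_mem h2

theorem Vf_ok {x Z : Set ℕ} {σ : List ℕ} {q c : Info} (hq : Ok x q) (h : Vf Z σ q c) :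
    Ok (join (restr x σ) Z) c := by
  constructor
  · intro y hy
    rcases h.1 y hy with ⟨h1, h2, h3⟩ | ⟨h1, h2⟩
    · exact Or.inl ⟨h1, hq.1 _ h2, h3⟩
    · exact Or.inr ⟨h1, h2⟩
  · intro y hy hc
    rcases h.2 y hy with ⟨h1, h2⟩ | ⟨h1, h2⟩
    · rcases hc with ⟨_, h4, h5⟩ | ⟨h3, _⟩
      · rcases h2 with h2 | h2
        · exact hq.2 _ h2 h4
        · exact h2 h5
      · omega
    · rcases hc with ⟨h3, _⟩ | ⟨_, h4⟩
      · omega
      · exact h2 h4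

/-- the minimal verifying information for correct `c` -/
def qp (σ : List ℕ) (c : Info) : Info :=
  ((c.1.filter (· % 2 = 0)).map (· / 2),
    ((c.2.filter (· % 2 = 0)).map (· / 2)).filter (fun z => z.unpair.1 ∈ σ))

theorem qp_prop {x Z : Set ℕ} {σ : List ℕ} {c : Info} (h : Ok (join (restr x σ) Z) c) :
    Ok x (qp σ c) ∧ (∀ z ∈ (qp σ c).1, z.unpair.1 ∈ σ) ∧ (∀ z ∈ (qp σ c).2, z.unpair.1 ∈ σ) ∧
    ∀ q : Info, (∀ z ∈ (qp σ c).1, z ∈ q.1) → (∀ z ∈ (qp σ c).2, z ∈ q.2) → Vf Z σ q c := by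
  have h1 : ∀ z ∈ (qp σ c).1, z ∈ x ∧ z.unpair.1 ∈ σ := by
    intro z hz
    simp only [qp, List.mem_map, List.mem_filter, decide_eq_true_eq] at hz
    obtain ⟨y, ⟨hy, hy0⟩, rfl⟩ := hz
    rcases h.1 y hy with ⟨_, h3⟩ | ⟨h2, _⟩
    · exact h3
    · omega
  refine ⟨⟨fun z hz => (h1 z hz).1, ?_⟩, fun z hz => (h1 z hz).2, ?_, ?_⟩
  · intro z hz hx
    simp only [qp, List.mem_map, List.mem_filter, decide_eq_true_eq] at hz
    obtain ⟨⟨y, ⟨hy, hy0⟩, rfl⟩, hσ⟩ := hz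
    exact h.2 y hy (Or.inl ⟨hy0, hx, hσ⟩)
  · intro z hz
    simp only [qp, List.mem_map, List.mem_filter, decide_eq_true_eq] at hz
    exact hz.2
  · intro q hq1 hq2
    constructor
    · intro y hy
      rcases h.1 y hy with ⟨h2, h3⟩ | ⟨h2, h3⟩
      · refine Or.inl ⟨h2, hq1 _ ?_, h3.2⟩
        simp only [qp, List.mem_map, List.mem_filter, decide_eq_true_eq]
        exact ⟨y, ⟨hy, h2⟩, rfl⟩
      · exact Or.inr ⟨h2, h3⟩
    · intro y hy
      rcases Nat.mod_two_eq_zero_or_one y with h0 | h0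
      · refine Or.inl ⟨h0, ?_⟩
        by_cases hσ : (y/2).unpair.1 ∈ σ
        · refine Or.inl (hq2 _ ?_)
          simp only [qp, List.mem_map, List.mem_filter, decide_eq_true_eq]
          exact ⟨⟨y, ⟨hy, h0⟩, rfl⟩, hσ⟩
        · exact Or.inr hσ
      · refine Or.inr ⟨h0, fun hz => h.2 y hy (Or.inr ⟨h0, hz⟩)⟩

theorem indep {x Z : Set ℕ} (h : OneGen x Z) (σ : List ℕ) (k : ℕ) (hk : k ∉ σ) :
    ¬ Red (col x k) (join (restr x σ) Z) := by
  intro hred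
  rw [Red_iff] at hred
  obtain ⟨⟨Up, hUp, hup⟩, ⟨Um, hUm, hum⟩⟩ := hred
  have hex : ∀ U : ℕ → Info → Prop, REPred (fun x : ℕ × Info => U x.1 x.2) →
      REIn Z (fun z : Info × ℕ => ∃ c, U z.2 c ∧ Vf Z σ z.1 c) := by
    intro U hU
    refine REIn.ex (S := fun (z : Info × ℕ) c => U z.2 c ∧ Vf Z σ z.1 c) ?_
    refine REIn.and (REIn.of_re ?_) ?_
    · exact RE.comp hU (f := fun y : (Info × ℕ) × Info => (y.1.2, y.2)) (by fun_prop)
    · exact (Vf_re Z σ).comp (f := fun y : (Info × ℕ) × Info => (y.1.1, y.2)) (by fun_prop)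
  have hV : REIn Z (fun q : Info => ∃ n, (Nat.pair k n ∈ q.1 ∧ ∃ c, Um n c ∧ Vf Z σ q c) ∨
      (Nat.pair k n ∈ q.2 ∧ ∃ c, Up n c ∧ Vf Z σ q c)) := by
    refine REIn.ex (S := fun (q : Info) n => (Nat.pair k n ∈ q.1 ∧ ∃ c, Um n c ∧ Vf Z σ q c) ∨
      (Nat.pair k n ∈ q.2 ∧ ∃ c, Up n c ∧ Vf Z σ q c)) ?_
    refine REIn.or (REIn.and (REIn.of_re ?_) (hex Um hUm)) (REIn.and (REIn.of_re ?_) (hex Up hUp))
    · exact RE.mem_list (by fun_prop) (by fun_prop)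
    · exact RE.mem_list (by fun_prop) (by fun_prop)
  rcases h _ hV with ⟨p, hp, n, h1⟩ | ⟨p, hp, hq⟩
  · rcases h1 with ⟨h2, c, hc, hv⟩ | ⟨h2, c, hc, hv⟩
    · exact (hum n).2 ⟨c, hc, Vf_ok hp hv⟩ (hp.1 _ h2)
    · exact hp.2 _ h2 ((hup n).2 ⟨c, hc, Vf_ok hp hv⟩)
  · obtain ⟨n, hn⟩ := exists_gt_list ((p.1 ++ p.2).map (fun y => y.unpair.2))
    have hnp : Nat.pair k n ∉ p.1 ++ p.2 := by
      intro hm
      have := hn n (List.mem_map.2 ⟨_, hm, by simp⟩)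
      exact lt_irrefl _ this
    rw [List.mem_append, not_or] at hnp
    by_cases hcol : n ∈ col x k
    · obtain ⟨c, hc, hok⟩ := (hup n).1 hcol
      obtain ⟨h1, h2, h3, h4⟩ := qp_prop hok
      refine hq ((qp σ c).1, Nat.pair k n :: (qp σ c).2) ⟨n, Or.inr ⟨by simp, c, hc,
        h4 _ (fun z hz => hz) (fun z hz => List.mem_cons_of_mem _ hz)⟩⟩ ?_
      intro y hy1 hy2
      simp only [app, List.mem_append, List.mem_cons] at hy1 hy2
      have hyx : y ∈ x := by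
        rcases hy1 with hy | hy
        exacts [hp.1 _ hy, h1.1 _ hy]
      rcases hy2 with hy | rfl | hy
      · exact hp.2 _ hy hyx
      · rcases hy1 with hy | hy
        · exact hnp.1 hy
        · have := h2 _ hy
          rw [Nat.unpair_pair] at this
          exact hk this
      · exact h1.2 _ hy hyx
    · obtain ⟨c, hc, hok⟩ := (hum n).1 hcol
      obtain ⟨h1, h2, h3, h4⟩ := qp_prop hok
      refine hq (Nat.pair k n :: (qp σ c).1, (qp σ c).2) ⟨n, Or.inl ⟨by simp, c, hc,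
        h4 _ (fun z hz => List.mem_cons_of_mem _ hz) (fun z hz => hz)⟩⟩ ?_
      intro y hy1 hy2
      simp only [app, List.mem_append, List.mem_cons] at hy1 hy2
      have hyx : y ∉ x := by
        rcases hy2 with hy | hy
        exacts [hp.2 _ hy, h1.2 _ hy]
      rcases hy1 with hy | rfl | hy
      · exact hyx (hp.1 _ hy)
      · rcases hy2 with hy | hy
        · exact hnp.2 hy
        · have := h3 _ hy
          rw [Nat.unpair_pair] at this
          exact hk this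
      · exact hyx (h1.1 _ hy)

end Pool.Agent.Helper578.JD
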