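import Pool.Agent.Helper578.JD.Grp



namespace Pool.Agent.Helper578.JD

open Encodable Oracle RE Defs


theorem countM_iff (M : ℕ → Prop) [DecidablePred M] (y n : ℕ) : Nat.count M y = n ↔
    ∃ L : List ℕ, L.length = n ∧ L.Nodup ∧ (∀ v ∈ L, v < y ∧ M v) ∧ ∀ v < y, v ∈ L ∨ ¬ M v := by
  rw [Nat.count_eq_card_filter_range]
  constructor
  · intro h
    refine ⟨((Finset.range y).filter M).toList, ?_, Finset.nodup_toList _, ?_, ?_⟩
    · rw [Finset.length_toList]; exact h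
    · intro v hv
      rw [Finset.mem_toList, Finset.mem_filter, Finset.mem_range] at hv
      exact hv
    · intro v hv
      by_cases hM : M v
      · left
        rw [Finset.mem_toList, Finset.mem_filter, Finset.mem_range]
        exact ⟨hv, hM⟩
      · exact Or.inr hM
  · rintro ⟨L, h1, h2, h3, h4⟩
    have : (Finset.range y).filter M = L.toFinset := by
      ext v
      rw [Finset.mem_filter, Finset.mem_range, List.mem_toFinset]
      constructor
      · rintro ⟨h5, h6⟩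
        rcases h4 v h5 with h7 | h7
        · exact h7
        · exact absurd h6 h7
      · exact h3 v
    rw [this, List.toFinset_card_of_nodup h2, h1]

theorem copy_of_numbering {G : Type} [AddCommGroup G] [Infinite G] (ν : ℕ → G)
    (hν : Function.Surjective ν) (X : Set ℕ)
    (h1 : REIn X fun p : ℕ × ℕ × ℕ => ν p.1 + ν p.2.1 = ν p.2.2)
    (h2 : REIn X fun p : ℕ × ℕ × ℕ => ν p.1 + ν p.2.1 ≠ ν p.2.2) :
    ∃ D, IsCopy G D ∧ Red D X := by
  classical
  obtain ⟨z, hz⟩ := hν 0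
  have hEq : REIn X fun p : ℕ × ℕ => ν p.1 = ν p.2 :=
    (h1.comp (f := fun p : ℕ × ℕ => (p.1, z, p.2)) (by fun_prop)).of_eq fun p => by
      simp [hz]
  have hNe : REIn X fun p : ℕ × ℕ => ν p.1 ≠ ν p.2 :=
    (h2.comp (f := fun p : ℕ × ℕ => (p.1, z, p.2)) (by fun_prop)).of_eq fun p => by
      simp [hz]
  set M : ℕ → Prop := fun a => ∀ b < a, ν b ≠ ν a with hMdef
  have hM : REIn X (fun a : ℕ => M a) :=
    REIn.all_lt (S := fun a i => ν i ≠ ν a)
      (hNe.comp (f := fun x : ℕ × ℕ => (x.2, x.1)) (by fun_prop)) (f := fun a => a) (by fun_prop)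
  have hNM : REIn X (fun a : ℕ => ¬ M a) := by
    refine (REIn.ex (S := fun (a : ℕ) (b : ℕ) => b < a ∧ ν b = ν a) (REIn.and
      (REIn.of_re (RE.lt (by fun_prop) (by fun_prop)))
      (hEq.comp (f := fun x : ℕ × ℕ => (x.2, x.1)) (by fun_prop)))).of_eq fun a => ?_
    simp only [hMdef]
    push Not
    rfl
  have hfind : ∀ g : G, M (Nat.find (hν g)) := by
    intro g b hb heq
    rw [Nat.find_spec (hν g)] at heq
    exact Nat.find_min (hν g) hb heq
  have hinf : (Set.ofPred M).Infinite := by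
    refine Set.infinite_of_injective_forall_mem (f := fun g => Nat.find (hν g)) ?_ hfind
    intro g g' hgg
    have h3 := Nat.find_spec (hν g)
    have h4 := Nat.find_spec (hν g')
    have hgg' : Nat.find (hν g) = Nat.find (hν g') := hgg
    rw [hgg'] at h3
    exact h3.symm.trans h4
  set u : ℕ → ℕ := Nat.nth M with hu
  have huM : ∀ n, M (u n) := fun n => Nat.nth_mem_of_infinite hinf n
  have hgraph : ∀ n y, u n = y ↔ M y ∧ Nat.count M y = n := by
    intro n y
    constructor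
    · rintro rfl
      exact ⟨huM n, Nat.count_nth_of_infinite hinf n⟩
    · rintro ⟨h3, h4⟩
      rw [hu, ← h4]
      exact Nat.nth_count h3
  have gph : REIn X fun p : ℕ × ℕ => u p.1 = p.2 := by
    have h3 : REIn X fun p : ℕ × ℕ => M p.2 ∧ ∃ L : List ℕ, L.length = p.1 ∧ L.Nodup ∧
        (∀ v ∈ L, v < p.2 ∧ M v) ∧ ∀ v < p.2, v ∈ L ∨ ¬ M v := by
      refine REIn.and (hM.comp (f := fun p : ℕ × ℕ => p.2) (by fun_prop)) ?_
      refine REIn.ex (S := fun (p : ℕ × ℕ) (L : List ℕ) => L.length = p.1 ∧ L.Nodup ∧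
        (∀ v ∈ L, v < p.2 ∧ M v) ∧ ∀ v < p.2, v ∈ L ∨ ¬ M v) ?_
      refine REIn.and (REIn.of_re (RE.eq (by fun_prop) (by fun_prop))) ?_
      refine REIn.and (REIn.of_re (RE.cp_nodup (l := fun x : (ℕ × ℕ) × List ℕ => x.2)
        (by fun_prop))) ?_
      refine REIn.and ?_ ?_
      · refine REIn.all_mem (S := fun (x : (ℕ × ℕ) × List ℕ) (v : ℕ) => v < x.1.2 ∧ M v)
          (l := fun x => x.2) ?_ (by fun_prop)
        exact REIn.and (REIn.of_re (RE.lt (by fun_prop) (by fun_prop)))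
          (hM.comp (f := fun x : ((ℕ × ℕ) × List ℕ) × ℕ => x.2) (by fun_prop))
      · refine REIn.all_lt (S := fun (x : (ℕ × ℕ) × List ℕ) (v : ℕ) => v ∈ x.2 ∨ ¬ M v)
          (f := fun x => x.1.2) ?_ (by fun_prop)
        exact REIn.or (REIn.of_re (RE.mem_list (by fun_prop) (by fun_prop)))
          (hNM.comp (f := fun x : ((ℕ × ℕ) × List ℕ) × ℕ => x.2) (by fun_prop))
    refine h3.of_eq fun p => ?_
    rw [hgraph, countM_iff]
  have hinj : Function.Injective (fun n => ν (u n)) := by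
    have key : ∀ n m, u n < u m → ν (u n) ≠ ν (u m) := fun n m h => huM m _ h
    intro n m hnm
    have hnm' : ν (u n) = ν (u m) := hnm
    rcases lt_trichotomy (u n) (u m) with h | h | h
    · exact absurd hnm' (key n m h)
    · exact Nat.nth_injective hinf h
    · exact absurd hnm'.symm (key m n h)
  have hsurj : Function.Surjective (fun n => ν (u n)) := by
    intro g
    refine ⟨Nat.count M (Nat.find (hν g)), ?_⟩
    have h3 : u (Nat.count M (Nat.find (hν g))) = Nat.find (hν g) :=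
      (hgraph _ _).2 ⟨hfind g, rfl⟩
    show ν (u (Nat.count M (Nat.find (hν g)))) = g
    rw [h3]
    exact Nat.find_spec (hν g)
  set E : ℕ ≃ G := Equiv.ofBijective (fun n => ν (u n)) ⟨hinj, hsurj⟩ with hE
  have hEa : ∀ n, E n = ν (u n) := fun n => rfl
  have hDiff : ∀ n : ℕ, (E.symm (ν (u n.unpair.1) + ν (u n.unpair.2.unpair.1)) =
      n.unpair.2.unpair.2) ↔ ν (u n.unpair.1) + ν (u n.unpair.2.unpair.1) =
        ν (u n.unpair.2.unpair.2) := by
    intro n
    rw [Equiv.symm_apply_eq, hEa]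
  refine ⟨{n | (fun a b => E.symm (ν (u a) + ν (u b))) n.unpair.1 n.unpair.2.unpair.1 =
    n.unpair.2.unpair.2}, ⟨fun a b => E.symm (ν (u a) + ν (u b)), E.symm, ?_, rfl⟩, ?_⟩
  · intro x y
    show E.symm (x + y) = E.symm (ν (u (E.symm x)) + ν (u (E.symm y)))
    rw [← hEa, ← hEa, Equiv.apply_symm_apply, Equiv.apply_symm_apply]
  · rw [Red_iff]
    have hg1 : REIn X fun x : ℕ × (ℕ × ℕ × ℕ) => u x.1.unpair.1 = x.2.1 :=
      gph.comp (f := fun x : ℕ × (ℕ × ℕ × ℕ) => (x.1.unpair.1, x.2.1)) (by fun_prop)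
    have hg2 : REIn X fun x : ℕ × (ℕ × ℕ × ℕ) => u x.1.unpair.2.unpair.1 = x.2.2.1 :=
      gph.comp (f := fun x : ℕ × (ℕ × ℕ × ℕ) => (x.1.unpair.2.unpair.1, x.2.2.1)) (by fun_prop)
    have hg3 : REIn X fun x : ℕ × (ℕ × ℕ × ℕ) => u x.1.unpair.2.unpair.2 = x.2.2.2 :=
      gph.comp (f := fun x : ℕ × (ℕ × ℕ × ℕ) => (x.1.unpair.2.unpair.2, x.2.2.2)) (by fun_prop)
    constructor
    · have h5 : REIn X fun n : ℕ => ∃ t : ℕ × ℕ × ℕ, u n.unpair.1 = t.1 ∧
          u n.unpair.2.unpair.1 = t.2.1 ∧ u n.unpair.2.unpair.2 = t.2.2 ∧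
          ν t.1 + ν t.2.1 = ν t.2.2 :=
        REIn.ex (S := fun (n : ℕ) (t : ℕ × ℕ × ℕ) => u n.unpair.1 = t.1 ∧
          u n.unpair.2.unpair.1 = t.2.1 ∧ u n.unpair.2.unpair.2 = t.2.2 ∧
          ν t.1 + ν t.2.1 = ν t.2.2)
          (hg1.and (hg2.and (hg3.and (h1.comp (f := fun x : ℕ × (ℕ × ℕ × ℕ) => x.2)
            (by fun_prop)))))
      refine h5.of_eq fun n => ?_
      show _ ↔ (E.symm (ν (u n.unpair.1) + ν (u n.unpair.2.unpair.1)) = n.unpair.2.unpair.2)
      rw [hDiff]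
      constructor
      · rintro ⟨⟨a, b, c⟩, ha, hb, hc, h⟩
        simp only at ha hb hc h
        rw [ha, hb, hc]
        exact h
      · intro h
        exact ⟨(_, _, _), rfl, rfl, rfl, h⟩
    · have h5 : REIn X fun n : ℕ => ∃ t : ℕ × ℕ × ℕ, u n.unpair.1 = t.1 ∧
          u n.unpair.2.unpair.1 = t.2.1 ∧ u n.unpair.2.unpair.2 = t.2.2 ∧
          ν t.1 + ν t.2.1 ≠ ν t.2.2 :=
        REIn.ex (S := fun (n : ℕ) (t : ℕ × ℕ × ℕ) => u n.unpair.1 = t.1 ∧
          u n.unpair.2.unpair.1 = t.2.1 ∧ u n.unpair.2.unpair.2 = t.2.2 ∧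
          ν t.1 + ν t.2.1 ≠ ν t.2.2)
          (hg1.and (hg2.and (hg3.and (h2.comp (f := fun x : ℕ × (ℕ × ℕ × ℕ) => x.2)
            (by fun_prop)))))
      refine h5.of_eq fun n => ?_
      show _ ↔ ¬ (E.symm (ν (u n.unpair.1) + ν (u n.unpair.2.unpair.1)) = n.unpair.2.unpair.2)
      rw [hDiff]
      constructor
      · rintro ⟨⟨a, b, c⟩, ha, hb, hc, h⟩
        simp only at ha hb hc h
        rw [ha, hb, hc]
        exact h
      · intro h
        exact ⟨(_, _, _), rfl, rfl, rfl, h⟩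

end Pool.Agent.Helper578.JD
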