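import Pool.Agent.Helper578.JD.Ext

namespace Pool.Agent.Helper578.JD

theorem prefix_getElem? {σ τ : List ℕ} (h : σ <+: τ) {i m : ℕ} (hi : σ[i]? = some m) : τ[i]? = some m := by
  obtain ⟨t, rfl⟩ := h
  have hlt : i < σ.length := by
    by_contra hc
    rw [List.getElem?_eq_none (by omega)] at hi
    cases hi
  rw [List.getElem?_append_left hlt]
  exact hi

theorem exists_ext_mem (n : ℕ) (σ : List ℕ) (hσ : σ.Nodup) : ∃ τ, σ <+: τ ∧ τ.Nodup ∧ n ∈ τ := by
  by_cases h : n ∈ σ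
  · exact ⟨σ, List.prefix_refl _, hσ, h⟩
  · refine ⟨σ ++ [n], List.prefix_append _ _, ?_, by simp⟩
    rw [List.nodup_append]
    refine ⟨hσ, by simp, ?_⟩
    intro a ha b hb
    simp at hb
    rw [hb]
    rintro rfl
    exact h ha

theorem exists_ext_len (σ : List ℕ) (hσ : σ.Nodup) : ∃ τ, σ <+: τ ∧ τ.Nodup ∧ σ.length < τ.length := by
  obtain ⟨n, hn⟩ := Infinite.exists_notMem_finset σ.toFinset
  have hn' : n ∉ σ := by simpa using hn
  refine ⟨σ ++ [n], List.prefix_append _ _, ?_, by simp⟩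
  rw [List.nodup_append]
  refine ⟨hσ, by simp, ?_⟩
  intro a ha b hb
  simp at hb
  rw [hb]
  rintro rfl
  exact hn' ha

theorem exists_perm_meeting (D : ℕ → List ℕ → Prop)
    (hD : ∀ i (σ : List ℕ), σ.Nodup → ∃ τ, σ <+: τ ∧ τ.Nodup ∧ D i τ) :
    ∃ π : ℕ ≃ ℕ, ∀ i, ∃ τ, D i τ ∧ Ext τ π := by
  classical
  have h1 : ∀ (i : ℕ) (σ : {σ : List ℕ // σ.Nodup}), ∃ τ : {σ : List ℕ // σ.Nodup}, σ.1 <+: τ.1 ∧ D i τ.1 := by
    rintro i ⟨σ, hσ⟩
    obtain ⟨τ, a, b, c⟩ := hD i σ hσ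
    exact ⟨⟨τ, b⟩, a, c⟩
  have h2 : ∀ (i : ℕ) (σ : {σ : List ℕ // σ.Nodup}), ∃ τ : {σ : List ℕ // σ.Nodup}, σ.1 <+: τ.1 ∧ i ∈ τ.1 := by
    rintro i ⟨σ, hσ⟩
    obtain ⟨τ, a, b, c⟩ := exists_ext_mem i σ hσ
    exact ⟨⟨τ, b⟩, a, c⟩
  have h3 : ∀ (σ : {σ : List ℕ // σ.Nodup}), ∃ τ : {σ : List ℕ // σ.Nodup}, σ.1 <+: τ.1 ∧ σ.1.length < τ.1.length := by
    rintro ⟨σ, hσ⟩
    obtain ⟨τ, a, b, c⟩ := exists_ext_len σ hσ
    exact ⟨⟨τ, b⟩, a, c⟩
  choose E1 e1 d1 using h1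
  choose E2 e2 d2 using h2
  choose E3 e3 d3 using h3
  let s : ℕ → {σ : List ℕ // σ.Nodup} := fun n => Nat.rec ⟨[], List.nodup_nil⟩ (fun i σ => E3 (E2 i (E1 i σ))) n
  have hs : ∀ i, s (i + 1) = E3 (E2 i (E1 i (s i))) := fun i => rfl
  have p1 : ∀ i, (E1 i (s i)).1 <+: (s (i + 1)).1 := by
    intro i
    rw [hs]
    exact (e2 i (E1 i (s i))).trans (e3 _)
  have p2 : ∀ i, (s i).1 <+: (s (i + 1)).1 := fun i => (e1 i (s i)).trans (p1 i)
  have p3 : ∀ i, i ∈ (s (i + 1)).1 := by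
    intro i
    rw [hs]
    exact (e3 _).subset (d2 i (E1 i (s i)))
  have p4 : ∀ i, (s i).1.length < (s (i + 1)).1.length := by
    intro i
    rw [hs]
    exact lt_of_le_of_lt ((e1 i (s i)).trans (e2 i _)).length_le (d3 _)
  have p5 : ∀ i, i ≤ (s i).1.length := by
    intro i
    induction i with
    | zero => exact Nat.zero_le _
    | succ i ih => have := p4 i; omega
  have p6 : ∀ i j, i ≤ j → (s i).1 <+: (s j).1 := by
    intro i j hij
    induction j, hij using Nat.le_induction with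
    | base => exact List.prefix_refl _
    | succ j _ ih => exact ih.trans (p2 j)
  have hlen : ∀ n, n < (s (n + 1)).1.length := fun n => by have := p5 (n + 1); omega
  let f : ℕ → ℕ := fun n => (s (n + 1)).1[n]'(hlen n)
  have hf : ∀ n, (s (n + 1)).1[n]? = some (f n) := fun n => List.getElem?_eq_getElem (hlen n)
  have hf2 : ∀ m n v, (s m).1[n]? = some v → f n = v := by
    intro m n v h
    rcases le_total m (n + 1) with hm | hm
    · have h4 := prefix_getElem? (p6 _ _ hm) h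
      rw [hf n] at h4
      exact Option.some.inj h4
    · have h4 := prefix_getElem? (p6 _ _ hm) (hf n)
      rw [h4] at h
      exact Option.some.inj h
  have hinj : Function.Injective f := by
    intro a b hab
    have ha := prefix_getElem? (p6 (a + 1) (max a b + 1) (by omega)) (hf a)
    have hb := prefix_getElem? (p6 (b + 1) (max a b + 1) (by omega)) (hf b)
    rw [← hab] at hb
    have hla : a < (s (max a b + 1)).1.length := by
      by_contra hc
      rw [List.getElem?_eq_none (by omega)] at ha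
      cases ha
    exact (List.getElem?_inj hla (s (max a b + 1)).2).1 (by rw [ha, hb])
  have hsurj : Function.Surjective f := by
    intro n
    obtain ⟨i, hi, hi2⟩ := List.getElem_of_mem (p3 n)
    exact ⟨i, hf2 (n + 1) i n (by rw [List.getElem?_eq_getElem hi, hi2])⟩
  refine ⟨Equiv.ofBijective f ⟨hinj, hsurj⟩, fun i => ⟨(E1 i (s i)).1, d1 i (s i), ?_⟩⟩
  intro j m hj
  exact hf2 (i + 1) j m (prefix_getElem? (p1 i) hj)

end Pool.Agent.Helper578.JD
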