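import Pool.Agent.Helper578.JD.Comp
import Pool.Agent.Helper578.JD.Defs

/-!
Enumerability relative to an oracle set, and its relation to Turing reducibility.
-/

namespace Pool.Agent.Helper578.JD.Oracle

open Encodable Pool.Agent.Helper578.JD Pool.Agent.Helper578.JD.Defs

section basic

variable {α β γ : Type*} [Primcodable α] [Primcodable β] [Primcodable γ]

/-- `S` is computably enumerable in `A`. -/
def REIn (A : Set ℕ) (S : α → Prop) : Prop :=
  ∃ R : α → List ℕ × List ℕ → Prop, REPred (fun x : α × (List ℕ × List ℕ) => R x.1 x.2) ∧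
    ∀ a, S a ↔ ∃ c, R a c ∧ Ok A c

variable {A : Set ℕ}

theorem REIn.of_eq {S T : α → Prop} (h : REIn A S) (hST : ∀ a, S a ↔ T a) : REIn A T := by
  have : S = T := funext fun a => propext (hST a)
  rw [← this]; exact h

theorem REIn.of_re {S : α → Prop} (h : REPred S) : REIn A S := by
  refine ⟨fun a _ => S a, RE.comp h Computable.fst, fun a => ⟨fun h => ⟨([], []), h, ?_⟩, ?_⟩⟩
  · exact ⟨fun x hx => by simp at hx, fun x hx => by simp at hx⟩
  · rintro ⟨_, h, _⟩; exact h

theorem REIn.mem {f : α → ℕ} (hf : Computable f) : REIn A fun a => f a ∈ A := by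
  refine ⟨fun a c => f a ∈ c.1, RE.mem_list (f := fun x : α × (List ℕ × List ℕ) => f x.1)
    (l := fun x : α × (List ℕ × List ℕ) => x.2.1) (by fun_prop) (by fun_prop), fun a => ?_⟩
  constructor
  · intro h
    exact ⟨([f a], []), by simp, fun x hx => by simp at hx; rw [hx]; exact h,
      fun x hx => by simp at hx⟩
  · rintro ⟨c, h1, h2⟩; exact h2.1 _ h1

theorem REIn.not_mem {f : α → ℕ} (hf : Computable f) : REIn A fun a => f a ∉ A := by
  refine ⟨fun a c => f a ∈ c.2, RE.mem_list (f := fun x : α × (List ℕ × List ℕ) => f x.1)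
    (l := fun x : α × (List ℕ × List ℕ) => x.2.2) (by fun_prop) (by fun_prop), fun a => ?_⟩
  constructor
  · intro h
    exact ⟨([], [f a]), by simp, fun x hx => by simp at hx,
      fun x hx => by simp at hx; rw [hx]; exact h⟩
  · rintro ⟨c, h1, h2⟩; exact h2.2 _ h1

theorem REIn.comp {S : β → Prop} (h : REIn A S) {f : α → β} (hf : Computable f) :
    REIn A fun a => S (f a) := by
  obtain ⟨R, hR, h⟩ := h
  exact ⟨fun a c => R (f a) c, RE.comp hR (f := fun x : α × (List ℕ × List ℕ) => (f x.1, x.2))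
    (by fun_prop), fun a => h (f a)⟩

/-- Correct information can be merged. -/
theorem Ok.append {c d : List ℕ × List ℕ} (hc : Ok A c) (hd : Ok A d) :
    Ok A (c.1 ++ d.1, c.2 ++ d.2) := by
  constructor
  · intro x hx
    rcases List.mem_append.1 hx with h | h
    exacts [hc.1 x h, hd.1 x h]
  · intro x hx
    rcases List.mem_append.1 hx with h | h
    exacts [hc.2 x h, hd.2 x h]

theorem REIn.and {S T : α → Prop} (hS : REIn A S) (hT : REIn A T) :
    REIn A fun a => S a ∧ T a := by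
  obtain ⟨R, hR, h1⟩ := hS
  obtain ⟨R', hR', h2⟩ := hT
  refine ⟨fun a c => ∃ x : (List ℕ × List ℕ) × (List ℕ × List ℕ), R a x.1 ∧ R' a x.2 ∧
    c = (x.1.1 ++ x.2.1, x.1.2 ++ x.2.2), ?_, fun a => ?_⟩
  · refine RE.ex (p := fun (y : α × (List ℕ × List ℕ))
      (x : (List ℕ × List ℕ) × (List ℕ × List ℕ)) => R y.1 x.1 ∧ R' y.1 x.2 ∧
      y.2 = (x.1.1 ++ x.2.1, x.1.2 ++ x.2.2)) ?_
    refine RE.and ?_ (RE.and ?_ (RE.eq (by fun_prop) (by fun_prop)))
    · exact RE.comp hR (f := fun y : (α × (List ℕ × List ℕ)) ×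
        ((List ℕ × List ℕ) × (List ℕ × List ℕ)) => (y.1.1, y.2.1)) (by fun_prop)
    · exact RE.comp hR' (f := fun y : (α × (List ℕ × List ℕ)) ×
        ((List ℕ × List ℕ) × (List ℕ × List ℕ)) => (y.1.1, y.2.2)) (by fun_prop)
  · constructor
    · rintro ⟨h3, h4⟩
      obtain ⟨c, hc1, hc2⟩ := (h1 a).1 h3
      obtain ⟨d, hd1, hd2⟩ := (h2 a).1 h4
      exact ⟨_, ⟨(c, d), hc1, hd1, rfl⟩, hc2.append hd2⟩
    · rintro ⟨_, ⟨⟨c, d⟩, hc1, hd1, rfl⟩, h3⟩
      refine ⟨(h1 a).2 ⟨c, hc1, ?_⟩, (h2 a).2 ⟨d, hd1, ?_⟩⟩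
      · exact ⟨fun x hx => h3.1 x (List.mem_append_left _ hx),
          fun x hx => h3.2 x (List.mem_append_left _ hx)⟩
      · exact ⟨fun x hx => h3.1 x (List.mem_append_right _ hx),
          fun x hx => h3.2 x (List.mem_append_right _ hx)⟩

theorem REIn.or {S T : α → Prop} (hS : REIn A S) (hT : REIn A T) :
    REIn A fun a => S a ∨ T a := by
  obtain ⟨R, hR, h1⟩ := hS
  obtain ⟨R', hR', h2⟩ := hT
  refine ⟨fun a c => R a c ∨ R' a c, RE.or hR hR', fun a => ?_⟩
  simp only [h1, h2]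
  constructor
  · rintro (⟨c, h3, h4⟩ | ⟨c, h3, h4⟩)
    exacts [⟨c, Or.inl h3, h4⟩, ⟨c, Or.inr h3, h4⟩]
  · rintro ⟨c, h3 | h3, h4⟩
    exacts [Or.inl ⟨c, h3, h4⟩, Or.inr ⟨c, h3, h4⟩]

theorem REIn.ex {S : α → β → Prop} (hS : REIn A fun x : α × β => S x.1 x.2) :
    REIn A fun a => ∃ b, S a b := by
  obtain ⟨R, hR, h1⟩ := hS
  refine ⟨fun a c => ∃ b, R (a, b) c, ?_, fun a => ?_⟩
  · refine RE.ex (p := fun (y : α × (List ℕ × List ℕ)) (b : β) => R (y.1, b) y.2) ?_
    exact RE.comp hR (f := fun y : (α × (List ℕ × List ℕ)) × β => ((y.1.1, y.2), y.1.2))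
      (by fun_prop)
  · constructor
    · rintro ⟨b, hb⟩
      obtain ⟨c, h2, h3⟩ := (h1 (a, b)).1 hb
      exact ⟨c, ⟨b, h2⟩, h3⟩
    · rintro ⟨c, ⟨b, h2⟩, h3⟩
      exact ⟨b, (h1 (a, b)).2 ⟨c, h2, h3⟩⟩

theorem REIn.all_lt {S : α → ℕ → Prop} (hS : REIn A fun x : α × ℕ => S x.1 x.2) {f : α → ℕ}
    (hf : Computable f) : REIn A fun a => ∀ i < f a, S a i := by
  obtain ⟨R, hR, h1⟩ := hS
  refine ⟨fun a c => ∀ i < f a, ∃ d : List ℕ × List ℕ, R (a, i) d ∧
    (∀ x ∈ d.1, x ∈ c.1) ∧ ∀ x ∈ d.2, x ∈ c.2, ?_, fun a => ?_⟩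
  · refine RE.all_lt (p := fun (y : α × (List ℕ × List ℕ)) (i : ℕ) =>
      ∃ d : List ℕ × List ℕ, R (y.1, i) d ∧ (∀ x ∈ d.1, x ∈ y.2.1) ∧ ∀ x ∈ d.2, x ∈ y.2.2)
      ?_ (by fun_prop)
    refine RE.ex (p := fun (y : (α × (List ℕ × List ℕ)) × ℕ) (d : List ℕ × List ℕ) =>
      R (y.1.1, y.2) d ∧ (∀ x ∈ d.1, x ∈ y.1.2.1) ∧ ∀ x ∈ d.2, x ∈ y.1.2.2) ?_
    refine RE.and ?_ (RE.and ?_ ?_)
    · exact RE.comp hR (f := fun y : ((α × (List ℕ × List ℕ)) × ℕ) × (List ℕ × List ℕ) =>
        ((y.1.1.1, y.1.2), y.2)) (by fun_prop)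
    · refine RE.all_mem (p := fun (y : ((α × (List ℕ × List ℕ)) × ℕ) × (List ℕ × List ℕ))
        (x : ℕ) => x ∈ y.1.1.2.1) (l := fun y => y.2.1) ?_ (by fun_prop)
      exact RE.mem_list (by fun_prop) (by fun_prop)
    · refine RE.all_mem (p := fun (y : ((α × (List ℕ × List ℕ)) × ℕ) × (List ℕ × List ℕ))
        (x : ℕ) => x ∈ y.1.1.2.2) (l := fun y => y.2.2) ?_ (by fun_prop)
      exact RE.mem_list (by fun_prop) (by fun_prop)
  · constructor
    · intro h
      have h2 : ∀ i, ∃ d : List ℕ × List ℕ, i < f a → R (a, i) d ∧ Ok A d := by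
        intro i
        by_cases hi : i < f a
        · obtain ⟨d, hd⟩ := (h1 (a, i)).1 (h i hi)
          exact ⟨d, fun _ => hd⟩
        · exact ⟨([], []), fun h => absurd h hi⟩
      choose d hd using h2
      refine ⟨((List.range (f a)).flatMap fun i => (d i).1,
        (List.range (f a)).flatMap fun i => (d i).2), fun i hi => ⟨d i, (hd i hi).1, ?_, ?_⟩,
        ⟨?_, ?_⟩⟩
      · intro x hx
        exact List.mem_flatMap.2 ⟨i, List.mem_range.2 hi, hx⟩
      · intro x hx
        exact List.mem_flatMap.2 ⟨i, List.mem_range.2 hi, hx⟩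
      · intro x hx
        obtain ⟨i, hi, hx⟩ := List.mem_flatMap.1 hx
        exact (hd i (List.mem_range.1 hi)).2.1 x hx
      · intro x hx
        obtain ⟨i, hi, hx⟩ := List.mem_flatMap.1 hx
        exact (hd i (List.mem_range.1 hi)).2.2 x hx
    · rintro ⟨c, hc, hok⟩ i hi
      obtain ⟨d, h2, h3, h4⟩ := hc i hi
      exact (h1 (a, i)).2 ⟨d, h2, fun x hx => hok.1 x (h3 x hx), fun x hx => hok.2 x (h4 x hx)⟩

theorem REIn.all_mem {S : α → β → Prop} (hS : REIn A fun x : α × β => S x.1 x.2)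
    {l : α → List β} (hl : Computable l) : REIn A fun a => ∀ b ∈ l a, S a b := by
  have h1 : REIn A fun a => ∀ i < (l a).length, ∃ b, (l a)[i]? = some b ∧ S a b := by
    refine REIn.all_lt (S := fun a i => ∃ b, (l a)[i]? = some b ∧ S a b) ?_ (by fun_prop)
    refine REIn.ex (S := fun (x : α × ℕ) b => (l x.1)[x.2]? = some b ∧ S x.1 b) ?_
    refine REIn.and (REIn.of_re (RE.eq (by fun_prop) (by fun_prop))) ?_
    exact hS.comp (f := fun x : (α × ℕ) × β => (x.1.1, x.2)) (by fun_prop)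
  refine h1.of_eq fun a => ?_
  constructor
  · intro h b hb
    obtain ⟨i, hi, rfl⟩ := List.getElem_of_mem hb
    obtain ⟨b', hb', hp'⟩ := h i hi
    rw [List.getElem?_eq_getElem hi] at hb'
    cases hb'
    exact hp'
  · intro h i hi
    exact ⟨(l a)[i], List.getElem?_eq_getElem hi, h _ (List.getElem_mem hi)⟩

end basic

section turing

theorem chiN_eq_one {A : Set ℕ} {n : ℕ} : chiN A n = 1 ↔ n ∈ A := by
  classical
  unfold chiN
  split_ifs with h <;> simp [h]

theorem chiN_eq_zero {A : Set ℕ} {n : ℕ} : chiN A n = 0 ↔ n ∉ A := by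
  classical
  unfold chiN
  split_ifs with h <;> simp [h]

/-- The use principle: the graph of a function recursive in `A` is c.e. in `A`. -/
theorem graph_of_recursiveIn {A : Set ℕ} {f : ℕ →. ℕ} (hf : Nat.RecursiveIn {chi A} f) :
    REIn A fun p : ℕ × ℕ => p.2 ∈ f p.1 := by
  induction hf with
  | zero =>
    have h : REPred fun p : ℕ × ℕ => p.2 = 0 := RE.eq (by fun_prop) (by fun_prop)
    refine (REIn.of_re h).of_eq fun p => ?_
    exact Part.mem_some_iff.symm
  | succ =>
    have h : REPred fun p : ℕ × ℕ => p.2 = Nat.succ p.1 := RE.eq (by fun_prop) (by fun_prop)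
    refine (REIn.of_re h).of_eq fun p => ?_
    exact Part.mem_some_iff.symm
  | left =>
    have h : REPred fun p : ℕ × ℕ => p.2 = (Nat.unpair p.1).1 :=
      RE.eq (by fun_prop) (by fun_prop)
    refine (REIn.of_re h).of_eq fun p => ?_
    exact Part.mem_some_iff.symm
  | right =>
    have h : REPred fun p : ℕ × ℕ => p.2 = (Nat.unpair p.1).2 :=
      RE.eq (by fun_prop) (by fun_prop)
    refine (REIn.of_re h).of_eq fun p => ?_
    exact Part.mem_some_iff.symm
  | oracle g hg =>
    rw [Set.mem_singleton_iff] at hg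
    subst hg
    have h : REIn A fun p : ℕ × ℕ => (p.1 ∈ A ∧ p.2 = 1) ∨ (p.1 ∉ A ∧ p.2 = 0) := by
      refine REIn.or (REIn.and (REIn.mem (by fun_prop)) (REIn.of_re ?_))
        (REIn.and (REIn.not_mem (by fun_prop)) (REIn.of_re ?_))
      · exact RE.eq (by fun_prop) (by fun_prop)
      · exact RE.eq (by fun_prop) (by fun_prop)
    refine h.of_eq fun p => ?_
    unfold chi
    rw [Part.mem_some_iff]
    by_cases hp : p.1 ∈ A
    · rw [chiN_eq_one.2 hp]; simp [hp]
    · rw [chiN_eq_zero.2 hp]; simp [hp]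
  | @pair f h _ _ ihf ihh =>
    have h1 : REIn A fun p : ℕ × ℕ => ∃ x : ℕ × ℕ, x.1 ∈ f p.1 ∧ x.2 ∈ h p.1 ∧
        p.2 = Nat.pair x.1 x.2 := by
      refine REIn.ex (S := fun (p x : ℕ × ℕ) => x.1 ∈ f p.1 ∧ x.2 ∈ h p.1 ∧
        p.2 = Nat.pair x.1 x.2) ?_
      refine REIn.and ?_ (REIn.and ?_ (REIn.of_re ?_))
      · exact ihf.comp (f := fun y : (ℕ × ℕ) × (ℕ × ℕ) => (y.1.1, y.2.1)) (by fun_prop)
      · exact ihh.comp (f := fun y : (ℕ × ℕ) × (ℕ × ℕ) => (y.1.1, y.2.2)) (by fun_prop)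
      · exact RE.eq (by fun_prop) (by fun_prop)
    refine h1.of_eq fun p => ?_
    simp only [Seq.seq, Part.map_eq_map, Part.mem_bind_iff, Part.mem_map_iff]
    constructor
    · rintro ⟨x, h2, h3, h4⟩
      exact ⟨_, ⟨x.1, h2, rfl⟩, x.2, h3, h4.symm⟩
    · rintro ⟨_, ⟨x1, h2, rfl⟩, x2, h3, h4⟩
      exact ⟨(x1, x2), h2, h3, h4.symm⟩
  | @comp f h _ _ ihf ihh =>
    have h1 : REIn A fun p : ℕ × ℕ => ∃ x : ℕ, x ∈ h p.1 ∧ p.2 ∈ f x := by
      refine REIn.ex (S := fun (p : ℕ × ℕ) (x : ℕ) => x ∈ h p.1 ∧ p.2 ∈ f x) ?_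
      refine REIn.and ?_ ?_
      · exact ihh.comp (f := fun y : (ℕ × ℕ) × ℕ => (y.1.1, y.2)) (by fun_prop)
      · exact ihf.comp (f := fun y : (ℕ × ℕ) × ℕ => (y.2, y.1.2)) (by fun_prop)
    refine h1.of_eq fun p => ?_
    exact Part.mem_bind_iff.symm
  | @prec f h _ _ ihf ihh =>
    have h1 : REIn A fun p : ℕ × ℕ => ∃ l : List ℕ,
        (∃ x, l[0]? = some x ∧ x ∈ f p.1.unpair.1) ∧
        (∀ y < p.1.unpair.2, ∃ u : ℕ × ℕ, l[y]? = some u.1 ∧ l[y + 1]? = some u.2 ∧
          u.2 ∈ h (Nat.pair p.1.unpair.1 (Nat.pair y u.1))) ∧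
        l[p.1.unpair.2]? = some p.2 := by
      refine REIn.ex (S := fun (p : ℕ × ℕ) (l : List ℕ) =>
        (∃ x, l[0]? = some x ∧ x ∈ f p.1.unpair.1) ∧
        (∀ y < p.1.unpair.2, ∃ u : ℕ × ℕ, l[y]? = some u.1 ∧ l[y + 1]? = some u.2 ∧
          u.2 ∈ h (Nat.pair p.1.unpair.1 (Nat.pair y u.1))) ∧
        l[p.1.unpair.2]? = some p.2) ?_
      refine REIn.and ?_ (REIn.and ?_ (REIn.of_re (RE.eq (by fun_prop) (by fun_prop))))
      · refine REIn.ex (S := fun (y : (ℕ × ℕ) × List ℕ) (x : ℕ) =>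
          y.2[0]? = some x ∧ x ∈ f y.1.1.unpair.1) ?_
        refine REIn.and (REIn.of_re (RE.eq (by fun_prop) (by fun_prop))) ?_
        exact ihf.comp (f := fun z : ((ℕ × ℕ) × List ℕ) × ℕ => (z.1.1.1.unpair.1, z.2))
          (by fun_prop)
      · refine REIn.all_lt (S := fun (z : (ℕ × ℕ) × List ℕ) (y : ℕ) =>
          ∃ u : ℕ × ℕ, z.2[y]? = some u.1 ∧ z.2[y + 1]? = some u.2 ∧
          u.2 ∈ h (Nat.pair z.1.1.unpair.1 (Nat.pair y u.1))) ?_ (by fun_prop)
        refine REIn.ex (S := fun (z : ((ℕ × ℕ) × List ℕ) × ℕ) (u : ℕ × ℕ) =>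
          z.1.2[z.2]? = some u.1 ∧ z.1.2[z.2 + 1]? = some u.2 ∧
          u.2 ∈ h (Nat.pair z.1.1.1.unpair.1 (Nat.pair z.2 u.1))) ?_
        refine REIn.and (REIn.of_re (RE.eq (by fun_prop) (by fun_prop)))
          (REIn.and (REIn.of_re (RE.eq (by fun_prop) (by fun_prop))) ?_)
        exact ihh.comp (f := fun z : (((ℕ × ℕ) × List ℕ) × ℕ) × (ℕ × ℕ) =>
          (Nat.pair z.1.1.1.1.unpair.1 (Nat.pair z.1.2 z.2.1), z.2.2)) (by fun_prop)
    refine h1.of_eq fun p => ?_
    obtain ⟨p1, v⟩ := p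
    simp only
    generalize ha : p1.unpair.1 = a
    generalize hn : p1.unpair.2 = n
    have key : ∀ (n v : ℕ), (∃ l : List ℕ, (∃ x, l[0]? = some x ∧ x ∈ f a) ∧
        (∀ y < n, ∃ u : ℕ × ℕ, l[y]? = some u.1 ∧ l[y + 1]? = some u.2 ∧
          u.2 ∈ h (Nat.pair a (Nat.pair y u.1))) ∧ l[n]? = some v) ↔
        v ∈ (Nat.rec (motive := fun _ => Part ℕ) (f a) (fun y IH => IH.bind fun i =>
          h (Nat.pair a (Nat.pair y i))) n : Part ℕ) := by
      intro n
      induction n with
      | zero =>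
        intro v
        constructor
        · rintro ⟨l, ⟨x, h2, h3⟩, -, h4⟩
          rw [h2] at h4
          cases h4
          exact h3
        · intro hv
          exact ⟨[v], ⟨v, rfl, hv⟩, fun y hy => absurd hy (by omega), rfl⟩
      | succ n ih =>
        intro v
        constructor
        · rintro ⟨l, h0, h2, h3⟩
          obtain ⟨u, hu1, hu2, hu3⟩ := h2 n (by omega)
          rw [hu2] at h3
          cases h3
          exact Part.mem_bind ((ih u.1).1 ⟨l, h0, fun y hy => h2 y (by omega), hu1⟩) hu3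
        · intro hv
          obtain ⟨i, hi1, hi2⟩ := Part.mem_bind_iff.1 hv
          obtain ⟨l, ⟨x, hx1, hx2⟩, h2, h3⟩ := (ih i).2 hi1
          have hlen : n < l.length := by
            by_contra hcon
            rw [List.getElem?_eq_none (by omega)] at h3
            cases h3
          have hget : ∀ y, y ≤ n → (l.take (n + 1) ++ [v])[y]? = l[y]? := by
            intro y hy
            rw [List.getElem?_append_left (by rw [List.length_take]; omega),
              List.getElem?_take_of_lt (by omega)]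
          have hget2 : (l.take (n + 1) ++ [v])[n + 1]? = some v := by
            rw [List.getElem?_append_right (by rw [List.length_take]; omega)]
            have : n + 1 - (l.take (n + 1)).length = 0 := by rw [List.length_take]; omega
            rw [this]; rfl
          refine ⟨l.take (n + 1) ++ [v], ⟨x, by rw [hget 0 (by omega)]; exact hx1, hx2⟩, ?_,
            hget2⟩
          intro y hy
          rcases Nat.lt_succ_iff_lt_or_eq.1 hy with hy | rfl
          · obtain ⟨u, hu1, hu2, hu3⟩ := h2 y hy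
            exact ⟨u, by rw [hget y (by omega)]; exact hu1,
              by rw [hget (y + 1) (by omega)]; exact hu2, hu3⟩
          · exact ⟨(i, v), by rw [hget y le_rfl]; exact h3, hget2, hi2⟩
    rw [key n v]
    subst ha hn
    rfl
  | @rfind f _ ihf =>
    have h1 : REIn A fun p : ℕ × ℕ => 0 ∈ f (Nat.pair p.1 p.2) ∧
        ∀ k < p.2, ∃ m, m ∈ f (Nat.pair p.1 k) ∧ m ≠ 0 := by
      refine REIn.and ?_ ?_
      · exact ihf.comp (f := fun y : ℕ × ℕ => (Nat.pair y.1 y.2, 0)) (by fun_prop)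
      · refine REIn.all_lt (S := fun (p : ℕ × ℕ) (k : ℕ) =>
          ∃ m, m ∈ f (Nat.pair p.1 k) ∧ m ≠ 0) ?_ (by fun_prop)
        refine REIn.ex (S := fun (x : (ℕ × ℕ) × ℕ) (m : ℕ) =>
          m ∈ f (Nat.pair x.1.1 x.2) ∧ m ≠ 0) ?_
        refine REIn.and ?_ (REIn.of_re (RE.ne (by fun_prop) (by fun_prop)))
        exact ihf.comp (f := fun y : ((ℕ × ℕ) × ℕ) × ℕ => (Nat.pair y.1.1.1 y.1.2, y.2))
          (by fun_prop)
    refine h1.of_eq fun p => ?_
    rw [Nat.mem_rfind]
    simp only [Part.map_eq_map, Part.mem_map_iff, decide_eq_true_eq, decide_eq_false_iff_not]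
    constructor
    · rintro ⟨h2, h3⟩
      refine ⟨⟨0, h2, rfl⟩, fun {k} hk => ?_⟩
      obtain ⟨m, hm1, hm2⟩ := h3 k hk
      exact ⟨m, hm1, hm2⟩
    · rintro ⟨⟨m, hm1, hm2⟩, h3⟩
      refine ⟨hm2 ▸ hm1, fun k hk => ?_⟩
      obtain ⟨m', hm1', hm2'⟩ := h3 hk
      exact ⟨m', hm1', hm2'⟩

/-- Total functions recursive in `A`. -/
def TotIn (A : Set ℕ) (f : ℕ → ℕ) : Prop :=
  Nat.RecursiveIn {chi A} fun n => Part.some (f n)

variable {A : Set ℕ}

theorem TotIn.of_comp {f : ℕ → ℕ} (hf : Computable f) : TotIn A f :=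
  Nat.Partrec.recursiveIn (Partrec.nat_iff.1 hf)

theorem TotIn.comp {f g : ℕ → ℕ} (hf : TotIn A f) (hg : TotIn A g) :
    TotIn A fun n => f (g n) := by
  refine (Nat.RecursiveIn.comp hf hg).of_eq fun n => ?_
  simp

theorem TotIn.pair {f g : ℕ → ℕ} (hf : TotIn A f) (hg : TotIn A g) :
    TotIn A fun n => Nat.pair (f n) (g n) := by
  refine (Nat.RecursiveIn.pair hf hg).of_eq fun n => ?_
  simp [Seq.seq]

theorem TotIn.chi : TotIn A (chiN A) := Nat.RecursiveIn.oracle _ rfl

theorem TotIn.prec {f h : ℕ → ℕ} (hf : TotIn A f) (hh : TotIn A h) :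
    TotIn A fun p => Nat.rec (motive := fun _ => ℕ) (f p.unpair.1)
      (fun y IH => h (Nat.pair p.unpair.1 (Nat.pair y IH))) p.unpair.2 := by
  refine (Nat.RecursiveIn.prec hf hh).of_eq fun p => ?_
  show (Nat.rec (motive := fun _ => Part ℕ) (Part.some (f p.unpair.1)) (fun y IH =>
    IH.bind fun i => Part.some (h (Nat.pair p.unpair.1 (Nat.pair y i)))) p.unpair.2 : Part ℕ) =
    Part.some (Nat.rec (motive := fun _ => ℕ) (f p.unpair.1)
      (fun y IH => h (Nat.pair p.unpair.1 (Nat.pair y IH))) p.unpair.2)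
  generalize p.unpair.2 = n
  induction n with
  | zero => rfl
  | succ n ih => simp only [ih, Part.bind_some]

/-- The query function: the `y`-th query asked by the information coded in `m`. -/
def qry (c : List ℕ × List ℕ) (y : ℕ) : ℕ := ((c.1 ++ c.2)[y]?).getD 0

/-- The expected answer. -/
def expd (c : List ℕ × List ℕ) (y : ℕ) : ℕ := if y < c.1.length then 1 else 0

/-- The number of wrong pieces of information. -/
noncomputable def viol (A : Set ℕ) (c : List ℕ × List ℕ) (n : ℕ) : ℕ :=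
  Nat.rec (motive := fun _ => ℕ) 0 (fun y IH => IH + ((chiN A (qry c y) - expd c y) +
    (expd c y - chiN A (qry c y)))) n

theorem viol_eq_zero (c : List ℕ × List ℕ) :
    viol A c (c.1.length + c.2.length) = 0 ↔ Ok A c := by
  have h1 : ∀ n, viol A c n = 0 ↔ ∀ y < n, chiN A (qry c y) = expd c y := by
    intro n
    induction n with
    | zero => simp [viol]
    | succ n ih =>
      have : viol A c (n + 1) = viol A c n + ((chiN A (qry c n) - expd c n) +
        (expd c n - chiN A (qry c n))) := rfl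
      rw [this]
      constructor
      · intro h y hy
        rcases Nat.lt_succ_iff_lt_or_eq.1 hy with hy | rfl
        · exact ih.1 (by omega) y hy
        · omega
      · intro h
        have h2 := ih.2 fun y hy => h y (by omega)
        have h3 := h n (by omega)
        omega
  rw [h1]
  constructor
  · intro h
    constructor
    · intro x hx
      obtain ⟨i, hi, rfl⟩ := List.getElem_of_mem hx
      have h2 := h i (by omega)
      unfold qry expd at h2
      rw [if_pos hi, List.getElem?_append_left hi, List.getElem?_eq_getElem hi] at h2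
      exact chiN_eq_one.1 h2
    · intro x hx
      obtain ⟨i, hi, rfl⟩ := List.getElem_of_mem hx
      have h2 := h (c.1.length + i) (by omega)
      unfold qry expd at h2
      rw [if_neg (by omega), List.getElem?_append_right (by omega),
        Nat.add_sub_cancel_left, List.getElem?_eq_getElem hi] at h2
      exact chiN_eq_zero.1 h2
  · rintro ⟨h2, h3⟩ y hy
    unfold qry expd
    by_cases hy1 : y < c.1.length
    · rw [if_pos hy1, List.getElem?_append_left hy1, List.getElem?_eq_getElem hy1]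
      exact chiN_eq_one.2 (h2 _ (List.getElem_mem hy1))
    · rw [if_neg hy1, List.getElem?_append_right (by omega),
        List.getElem?_eq_getElem (by omega)]
      exact chiN_eq_zero.2 (h3 _ (List.getElem_mem _))

theorem TotIn.viol : TotIn A fun m => viol A
    ((decode (α := List ℕ × List ℕ) m.unpair.1).getD ([], [])) m.unpair.2 := by
  have hK : Computable fun w : ℕ =>
      qry ((decode (α := List ℕ × List ℕ) w.unpair.1).getD ([], [])) w.unpair.2.unpair.1 := by
    unfold qry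
    have h1 : Computable fun w : ℕ =>
        (decode (α := List ℕ × List ℕ) w.unpair.1).getD ([], []) :=
      Primrec.option_getD.to_comp.comp (by fun_prop) (by fun_prop)
    exact Primrec.option_getD.to_comp.comp (by fun_prop) (by fun_prop)
  have hE : Computable fun w : ℕ =>
      expd ((decode (α := List ℕ × List ℕ) w.unpair.1).getD ([], [])) w.unpair.2.unpair.1 := by
    unfold expd
    have h1 : Computable fun w : ℕ =>
        (decode (α := List ℕ × List ℕ) w.unpair.1).getD ([], []) :=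
      Primrec.option_getD.to_comp.comp (by fun_prop) (by fun_prop)
    exact RE.cite (RE.cp_lt (by fun_prop) (by fun_prop)) (by fun_prop) (by fun_prop)
  have hG : Computable fun v : ℕ => v.unpair.1.unpair.2.unpair.2 +
      ((v.unpair.2 - expd ((decode (α := List ℕ × List ℕ) v.unpair.1.unpair.1).getD ([], []))
        v.unpair.1.unpair.2.unpair.1) +
      (expd ((decode (α := List ℕ × List ℕ) v.unpair.1.unpair.1).getD ([], []))
        v.unpair.1.unpair.2.unpair.1 - v.unpair.2)) := by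
    have h1 : Computable fun v : ℕ =>
        expd ((decode (α := List ℕ × List ℕ) v.unpair.1.unpair.1).getD ([], []))
        v.unpair.1.unpair.2.unpair.1 := hE.comp (g := fun v : ℕ => v.unpair.1) (by fun_prop)
    fun_prop
  have h2 : TotIn A fun w => chiN A
      (qry ((decode (α := List ℕ × List ℕ) w.unpair.1).getD ([], [])) w.unpair.2.unpair.1) :=
    TotIn.chi.comp (TotIn.of_comp hK)
  have h3 := (TotIn.of_comp (A := A) hG).comp ((TotIn.of_comp Computable.id).pair h2)
  have h4 := TotIn.prec (TotIn.of_comp (A := A) (Computable.const 0)) h3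
  refine Nat.RecursiveIn.of_eq h4 fun p => ?_
  simp only [Nat.unpair_pair, id]
  rfl

/-- A function whose graph is c.e. in `A` is recursive in `A`. -/
theorem recursiveIn_of_graph {f : ℕ → ℕ} (h : REIn A fun p : ℕ × ℕ => f p.1 = p.2) :
    TotIn A f := by
  obtain ⟨R, hR, hS⟩ := h
  obtain ⟨q, hq, hRq⟩ := RE.re_iff.1 hR
  -- codes `k = pair v (pair c t)`
  let cc : ℕ → List ℕ × List ℕ := fun k =>
    (decode (α := List ℕ × List ℕ) k.unpair.2.unpair.1).getD ([], [])
  have hcc : Computable cc :=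
    Primrec.option_getD.to_comp.comp (by fun_prop) (by fun_prop)
  let Φ : ℕ → ℕ := fun m =>
    (if q ((m.unpair.1, m.unpair.2.unpair.1), cc m.unpair.2) m.unpair.2.unpair.2.unpair.2 = true
      then 0 else 1) +
    viol A (cc m.unpair.2) ((cc m.unpair.2).1.length + (cc m.unpair.2).2.length)
  have hq' : Computable fun m : ℕ =>
      q ((m.unpair.1, m.unpair.2.unpair.1), cc m.unpair.2) m.unpair.2.unpair.2.unpair.2 :=
    hq.comp (g := fun m : ℕ => ((m.unpair.1, m.unpair.2.unpair.1), cc m.unpair.2))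
      (h := fun m : ℕ => m.unpair.2.unpair.2.unpair.2) (by fun_prop) (by fun_prop)
  have hΦ1 : TotIn A fun m : ℕ =>
      (if q ((m.unpair.1, m.unpair.2.unpair.1), cc m.unpair.2) m.unpair.2.unpair.2.unpair.2 = true
      then 0 else 1) :=
    TotIn.of_comp (RE.cite (RE.cp_eq hq' (by fun_prop)) (by fun_prop) (by fun_prop))
  have hΦ2 : TotIn A fun m : ℕ => viol A (cc m.unpair.2)
      ((cc m.unpair.2).1.length + (cc m.unpair.2).2.length) := by
    have h1 : Computable fun m : ℕ => Nat.pair m.unpair.2.unpair.2.unpair.1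
        ((cc m.unpair.2).1.length + (cc m.unpair.2).2.length) := by fun_prop
    refine Nat.RecursiveIn.of_eq (TotIn.viol.comp (TotIn.of_comp h1)) fun m => ?_
    simp only [Nat.unpair_pair]
    rfl
  have hΦ : TotIn A Φ := by
    have h1 : Computable fun m : ℕ => m.unpair.1 + m.unpair.2 := by fun_prop
    refine Nat.RecursiveIn.of_eq ((TotIn.of_comp h1).comp (hΦ1.pair hΦ2)) fun m => ?_
    simp only [Nat.unpair_pair]
    rfl
  have hkey : ∀ n k, Φ (Nat.pair n k) = 0 → f n = k.unpair.1 := by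
    intro n k h0
    simp only [Φ, Nat.unpair_pair] at h0
    have h1 : q ((n, k.unpair.1), cc k) k.unpair.2.unpair.2 = true := by
      by_contra hcon
      rw [if_neg hcon] at h0
      omega
    have h2 : viol A (cc k) ((cc k).1.length + (cc k).2.length) = 0 := by omega
    exact (hS (n, k.unpair.1)).2 ⟨cc k, (hRq _).2 ⟨_, h1⟩, (viol_eq_zero _).1 h2⟩
  have hex : ∀ n, ∃ k, Φ (Nat.pair n k) = 0 := by
    intro n
    obtain ⟨c, hc, hok⟩ := (hS (n, f n)).1 rfl
    obtain ⟨t, ht⟩ := (hRq ((n, f n), c)).1 hc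
    refine ⟨Nat.pair (f n) (Nat.pair (encode c) t), ?_⟩
    have hck : cc (Nat.pair (f n) (Nat.pair (encode c) t)) = c := by
      simp only [cc, Nat.unpair_pair]
      rw [encodek, Option.getD_some]
    simp only [Φ, Nat.unpair_pair, hck]
    rw [if_pos ht, (viol_eq_zero c).2 hok]
  have h5 := Nat.RecursiveIn.rfind hΦ
  have h6 : Nat.RecursiveIn {Defs.chi A} fun n => Part.some (Nat.find (hex n)) := by
    refine h5.of_eq fun n => ?_
    rw [Part.eq_some_iff, Nat.mem_rfind]
    simp only [Part.map_eq_map, Part.map_some, Part.mem_some_iff]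
    constructor
    · have := Nat.find_spec (hex n)
      simp [this]
    · intro k hk
      have := Nat.find_min (hex n) hk
      simp [this]
  have h7 : TotIn A fun n => (Nat.find (hex n)).unpair.1 :=
    (TotIn.of_comp (f := fun n : ℕ => n.unpair.1) (by fun_prop)).comp h6
  refine Nat.RecursiveIn.of_eq h7 fun n => ?_
  rw [hkey n _ (Nat.find_spec (hex n))]

/-- Turing reducibility between sets in terms of relative enumerability. -/
theorem turingReducible_iff {B : Set ℕ} :
    TuringReducible (chi B) (chi A) ↔ REIn A (· ∈ B) ∧ REIn A (· ∉ B) := by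
  rw [TuringReducible, RecursiveIn.iff_nat]
  constructor
  · intro h
    have h1 := graph_of_recursiveIn h
    constructor
    · refine (h1.comp (f := fun n : ℕ => (n, 1)) (by fun_prop)).of_eq fun n => ?_
      rw [← chiN_eq_one (A := B)]
      unfold chi
      rw [Part.mem_some_iff]
      exact eq_comm
    · refine (h1.comp (f := fun n : ℕ => (n, 0)) (by fun_prop)).of_eq fun n => ?_
      rw [← chiN_eq_zero (A := B)]
      unfold chi
      rw [Part.mem_some_iff]
      exact eq_comm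
  · rintro ⟨h1, h2⟩
    apply recursiveIn_of_graph
    have h3 : REIn A fun p : ℕ × ℕ => (p.1 ∈ B ∧ p.2 = 1) ∨ (p.1 ∉ B ∧ p.2 = 0) := by
      refine REIn.or (REIn.and (h1.comp (by fun_prop)) (REIn.of_re ?_))
        (REIn.and (h2.comp (by fun_prop)) (REIn.of_re ?_))
      · exact RE.eq (by fun_prop) (by fun_prop)
      · exact RE.eq (by fun_prop) (by fun_prop)
    refine h3.of_eq fun p => ?_
    by_cases hp : p.1 ∈ B
    · rw [chiN_eq_one.2 hp]; simp [hp, eq_comm]
    · rw [chiN_eq_zero.2 hp]; simp [hp, eq_comm]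

/-- Turing reducibility of a function to a set in terms of relative enumerability. -/
theorem turingReducible_fun_iff {g : ℕ → ℕ} :
    TuringReducible (fun n => Part.some (g n)) (chi A) ↔
      REIn A fun p : ℕ × ℕ => g p.1 = p.2 := by
  rw [TuringReducible, RecursiveIn.iff_nat]
  constructor
  · intro h
    refine (graph_of_recursiveIn h).of_eq fun p => ?_
    rw [Part.mem_some_iff]
    exact eq_comm
  · exact recursiveIn_of_graph

end turing

end Pool.Agent.Helper578.JD.Oracle
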