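import Pool.Agent.Helper578.JD.Indep
import Pool.Agent.Helper578.JD.Ext



namespace Pool.Agent.Helper578.JD

namespace P1

open Encodable Oracle RE Defs
open Nat.Partrec (Code)

theorem exists_bound (L : List ℕ) : ∃ N, ∀ y ∈ L, y < N := by
  induction L with
  | nil => exact ⟨0, fun y hy => absurd hy List.not_mem_nil⟩
  | cons a L ih =>
    obtain ⟨N, hN⟩ := ih
    refine ⟨N + a + 1, fun y hy => ?_⟩
    rcases List.mem_cons.1 hy with rfl | hy
    · omega
    · have := hN y hy; omega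

theorem pair_unpair_eq {y l : ℕ} (h : y.unpair.1 = l) : y = Nat.pair l y.unpair.2 := by
  rw [← h, Nat.pair_unpair]

theorem realize_aux {x Z : Set ℕ} (h : OneGen x Z) (σ : List ℕ) (hσ : σ.Nodup) (q : Info)
    (hq : Cons q)
    (h1 : ∀ y ∈ q.1, ∀ m, σ[y.unpair.1]? = some m → Nat.pair m y.unpair.2 ∈ x)
    (h2 : ∀ y ∈ q.2, ∀ m, σ[y.unpair.1]? = some m → Nat.pair m y.unpair.2 ∉ x) (d : ℕ) :
    ∃ τ : List ℕ, σ <+: τ ∧ τ.Nodup ∧ τ.length = σ.length + d ∧
      (∀ y ∈ q.1, ∀ m, τ[y.unpair.1]? = some m → Nat.pair m y.unpair.2 ∈ x) ∧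
      (∀ y ∈ q.2, ∀ m, τ[y.unpair.1]? = some m → Nat.pair m y.unpair.2 ∉ x) := by
  induction d with
  | zero => exact ⟨σ, List.prefix_rfl, hσ, rfl, h1, h2⟩
  | succ d ih =>
    obtain ⟨τ, hpre, hnd, hlen, g1, g2⟩ := ih
    obtain ⟨k, hk, hok⟩ := dens h
      ((q.1.filter (fun y => y.unpair.1 = τ.length)).map (fun y => y.unpair.2),
        (q.2.filter (fun y => y.unpair.1 = τ.length)).map (fun y => y.unpair.2)) (by
        intro a ha hb
        simp only [List.mem_map, List.mem_filter, decide_eq_true_eq] at ha hb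
        obtain ⟨y, ⟨hy, hyl⟩, rfl⟩ := ha
        obtain ⟨y', ⟨hy', hyl'⟩, he⟩ := hb
        have e1 : y = y' := by
          rw [pair_unpair_eq hyl, pair_unpair_eq hyl', he]
        exact hq y hy (e1 ▸ hy')) τ
    have hget : ∀ (i m : ℕ), (τ ++ [k])[i]? = some m → τ[i]? = some m ∨ (i = τ.length ∧ m = k) := by
      intro i m him
      rcases Nat.lt_or_ge i τ.length with hi | hi
      · rw [List.getElem?_append_left hi] at him
        exact Or.inl him
      · rw [List.getElem?_append_right hi] at him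
        rcases Nat.eq_zero_or_pos (i - τ.length) with h0 | h0
        · rw [h0] at him
          simp only [List.getElem?_cons_zero, Option.some.injEq] at him
          exact Or.inr ⟨by omega, him.symm⟩
        · rw [List.getElem?_eq_none (by simp; omega)] at him
          exact absurd him (by simp)
    refine ⟨τ ++ [k], hpre.trans (List.prefix_append _ _), ?_, by simp [hlen]; omega, ?_, ?_⟩
    · rw [List.nodup_append]
      refine ⟨hnd, List.nodup_singleton k, ?_⟩
      intro a ha b hb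
      rw [List.mem_singleton] at hb
      rintro rfl
      exact hk (hb ▸ ha)
    · intro y hy m hm
      rcases hget _ _ hm with h3 | ⟨h3, rfl⟩
      · exact g1 y hy m h3
      · have : y.unpair.2 ∈ col x m := hok.1 _ (by
          simp only [List.mem_map, List.mem_filter, decide_eq_true_eq]
          exact ⟨y, ⟨hy, h3⟩, rfl⟩)
        exact this
    · intro y hy m hm
      rcases hget _ _ hm with h3 | ⟨h3, rfl⟩
      · exact g2 y hy m h3
      · have : y.unpair.2 ∉ col x m := hok.2 _ (by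
          simp only [List.mem_map, List.mem_filter, decide_eq_true_eq]
          exact ⟨y, ⟨hy, h3⟩, rfl⟩)
        exact this

theorem realize {x Z : Set ℕ} (h : OneGen x Z) (σ : List ℕ) (hσ : σ.Nodup) (q : Info)
    (hq : Cons q)
    (h1 : ∀ y ∈ q.1, ∀ m, σ[y.unpair.1]? = some m → Nat.pair m y.unpair.2 ∈ x)
    (h2 : ∀ y ∈ q.2, ∀ m, σ[y.unpair.1]? = some m → Nat.pair m y.unpair.2 ∉ x) :
    ∃ τ, σ <+: τ ∧ τ.Nodup ∧ ∀ π : ℕ → ℕ, Ext τ π → Ok (perm π x) q := by
  obtain ⟨N, hN⟩ := exists_bound (q.1 ++ q.2)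
  obtain ⟨τ, hpre, hnd, hlen, g1, g2⟩ := realize_aux h σ hσ q hq h1 h2 N
  refine ⟨τ, hpre, hnd, fun π hπ => ?_⟩
  have key : ∀ y ∈ q.1 ++ q.2, τ[y.unpair.1]? = some (π y.unpair.1) := by
    intro y hy
    have h3 := hN y hy
    have h4 := Nat.unpair_left_le y
    have h5 : y.unpair.1 < τ.length := by omega
    have h6 := List.getElem?_eq_getElem h5
    rw [hπ _ _ h6, h6]
  constructor
  · intro y hy
    exact g1 y hy _ (key y (List.mem_append_left _ hy))
  · intro y hy
    exact g2 y hy _ (key y (List.mem_append_right _ hy))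


/-- pull back along `σ` -/
def pullL (σ L : List ℕ) : List ℕ :=
  (List.range σ.length).flatMap fun l =>
    (L.filter (fun y => σ[l]? = some y.unpair.1)).map (fun y => Nat.pair l y.unpair.2)

theorem mem_pullL {σ L : List ℕ} {z : ℕ} :
    z ∈ pullL σ L ↔ ∃ y ∈ L, ∃ l, σ[l]? = some y.unpair.1 ∧ Nat.pair l y.unpair.2 = z := by
  unfold pullL
  simp only [List.mem_flatMap, List.mem_range, List.mem_map, List.mem_filter, decide_eq_true_eq]
  constructor
  · rintro ⟨l, _, y, ⟨hy, hl⟩, he⟩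
    exact ⟨y, hy, l, hl, he⟩
  · rintro ⟨y, hy, l, hl, he⟩
    refine ⟨l, ?_, y, ⟨hy, hl⟩, he⟩
    by_contra hcon
    rw [List.getElem?_eq_none (by omega)] at hl
    exact absurd hl (by simp)

/-- push forward along `σ` -/
def pushL (σ L : List ℕ) : List ℕ :=
  L.filterMap fun y => (σ[y.unpair.1]?).map (fun m => Nat.pair m y.unpair.2)

theorem mem_pushL {σ L : List ℕ} {z : ℕ} :
    z ∈ pushL σ L ↔ ∃ y ∈ L, ∃ m, σ[y.unpair.1]? = some m ∧ Nat.pair m y.unpair.2 = z := by
  unfold pushL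
  simp only [List.mem_filterMap, Option.map_eq_some_iff]

theorem pushpull {σ L : List ℕ} {y m : ℕ} (hm : σ[y.unpair.1]? = some m)
    (h : Nat.pair m y.unpair.2 ∈ L) : y ∈ pullL σ L := by
  rw [mem_pullL]
  refine ⟨_, h, y.unpair.1, ?_, ?_⟩
  · rw [Nat.unpair_pair]; exact hm
  · rw [Nat.unpair_pair]; exact Nat.pair_unpair y

theorem step_generic {x Z : Set ℕ} (h : OneGen x Z) (V : Info → Prop) (hV : REIn Z V)
    (σ : List ℕ) (hσ : σ.Nodup) : ∃ τ, σ <+: τ ∧ τ.Nodup ∧
      ((∀ π : ℕ → ℕ, Ext τ π → ∃ p, Ok (perm π x) p ∧ V p) ∨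
       (∀ π : ℕ → ℕ, Ext τ π → ∃ p, Ok (perm π x) p ∧ ∀ q, V q → ¬ Cons (app p q))) := by
  set V' : Info → Prop := fun p' => ∃ q : Info, V q ∧ (Cons q ∧
    ((∀ y ∈ q.1, (σ[y.unpair.1]? = none ∨ ∃ m, σ[y.unpair.1]? = some m ∧
        Nat.pair m y.unpair.2 ∈ p'.1)) ∧
     (∀ y ∈ q.2, (σ[y.unpair.1]? = none ∨ ∃ m, σ[y.unpair.1]? = some m ∧
        Nat.pair m y.unpair.2 ∈ p'.2)))) with hV'
  have hre : REIn Z V' := by
    refine REIn.ex (S := fun (p' q : Info) => V q ∧ (Cons q ∧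
      ((∀ y ∈ q.1, (σ[y.unpair.1]? = none ∨ ∃ m, σ[y.unpair.1]? = some m ∧
          Nat.pair m y.unpair.2 ∈ p'.1)) ∧
       (∀ y ∈ q.2, (σ[y.unpair.1]? = none ∨ ∃ m, σ[y.unpair.1]? = some m ∧
          Nat.pair m y.unpair.2 ∈ p'.2))))) ?_
    refine REIn.and (hV.comp Computable.snd) (REIn.of_re ?_)
    refine RE.and ?_ (RE.and ?_ ?_)
    · refine RE.all_mem (p := fun (x : Info × Info) y => y ∉ x.2.2) (l := fun x => x.2.1) ?_ (by fun_prop)
      exact RE.not_mem_list (by fun_prop) (by fun_prop)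
    · refine RE.all_mem (p := fun (x : Info × Info) y => σ[y.unpair.1]? = none ∨
        ∃ m, σ[y.unpair.1]? = some m ∧ Nat.pair m y.unpair.2 ∈ x.1.1) (l := fun x => x.2.1) ?_
        (by fun_prop)
      refine RE.or (RE.eq (by fun_prop) (by fun_prop)) ?_
      refine RE.ex (p := fun (x : (Info × Info) × ℕ) m => σ[x.2.unpair.1]? = some m ∧
        Nat.pair m x.2.unpair.2 ∈ x.1.1.1) ?_
      exact RE.and (RE.eq (by fun_prop) (by fun_prop)) (RE.mem_list (by fun_prop) (by fun_prop))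
    · refine RE.all_mem (p := fun (x : Info × Info) y => σ[y.unpair.1]? = none ∨
        ∃ m, σ[y.unpair.1]? = some m ∧ Nat.pair m y.unpair.2 ∈ x.1.2) (l := fun x => x.2.2) ?_
        (by fun_prop)
      refine RE.or (RE.eq (by fun_prop) (by fun_prop)) ?_
      refine RE.ex (p := fun (x : (Info × Info) × ℕ) m => σ[x.2.unpair.1]? = some m ∧
        Nat.pair m x.2.unpair.2 ∈ x.1.1.2) ?_
      exact RE.and (RE.eq (by fun_prop) (by fun_prop)) (RE.mem_list (by fun_prop) (by fun_prop))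
  rcases h V' hre with ⟨p', hp', q, hVq, hcq, e1, e2⟩ | ⟨p', hp', hav⟩
  · have conv : ∀ {L M : List ℕ}, (∀ y ∈ L, (σ[y.unpair.1]? = none ∨ ∃ m, σ[y.unpair.1]? = some m ∧
        Nat.pair m y.unpair.2 ∈ M)) → ∀ y ∈ L, ∀ m, σ[y.unpair.1]? = some m →
        Nat.pair m y.unpair.2 ∈ M := by
      intro L M hLM y hy m hm
      rcases hLM y hy with h0 | ⟨m', hm', hmem⟩
      · rw [h0] at hm; exact absurd hm (by simp)
      · rw [hm'] at hm
        rw [Option.some.injEq] at hm
        rw [← hm]; exact hmem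
    obtain ⟨τ, hpre, hnd, hτ⟩ := realize h σ hσ q hcq
      (fun y hy m hm => hp'.1 _ (conv e1 y hy m hm))
      (fun y hy m hm => hp'.2 _ (conv e2 y hy m hm))
    exact ⟨τ, hpre, hnd, Or.inl fun π hπ => ⟨q, hτ π hπ, hVq⟩⟩
  · refine ⟨σ, List.prefix_rfl, hσ, Or.inr fun π hπ => ?_⟩
    refine ⟨(pullL σ p'.1, pullL σ p'.2), ⟨?_, ?_⟩, ?_⟩
    · intro z hz
      obtain ⟨y, hy, l, hl, rfl⟩ := mem_pullL.1 hz
      change Nat.pair (π (Nat.unpair (Nat.pair l y.unpair.2)).1) (Nat.unpair (Nat.pair l y.unpair.2)).2 ∈ x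
      rw [Nat.unpair_pair]
      dsimp only
      rw [hπ l _ hl, Nat.pair_unpair]
      exact hp'.1 y hy
    · intro z hz
      obtain ⟨y, hy, l, hl, rfl⟩ := mem_pullL.1 hz
      change ¬ (Nat.pair (π (Nat.unpair (Nat.pair l y.unpair.2)).1) (Nat.unpair (Nat.pair l y.unpair.2)).2 ∈ x)
      rw [Nat.unpair_pair]
      dsimp only
      rw [hπ l _ hl, Nat.pair_unpair]
      exact hp'.2 y hy
    · intro q hVq hcons
      have hcq : Cons q := fun z hz1 hz2 =>
        hcons z (List.mem_append_right _ hz1) (List.mem_append_right _ hz2)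
      refine hav (pushL σ q.1, pushL σ q.2) ⟨q, hVq, hcq, ?_, ?_⟩ ?_
      · intro y hy
        rcases hs : σ[y.unpair.1]? with _ | m
        · exact Or.inl rfl
        · exact Or.inr ⟨m, rfl, mem_pushL.2 ⟨y, hy, m, hs, rfl⟩⟩
      · intro y hy
        rcases hs : σ[y.unpair.1]? with _ | m
        · exact Or.inl rfl
        · exact Or.inr ⟨m, rfl, mem_pushL.2 ⟨y, hy, m, hs, rfl⟩⟩
      · intro z hz1 hz2
        rcases List.mem_append.1 hz1 with hz1 | hz1 <;> rcases List.mem_append.1 hz2 with hz2 | hz2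
        · exact hp'.2 z hz2 (hp'.1 z hz1)
        · obtain ⟨y, hy, m, hm, rfl⟩ := mem_pushL.1 hz2
          exact hcons y (List.mem_append_left _ (pushpull hm hz1)) (List.mem_append_right _ hy)
        · obtain ⟨y, hy, m, hm, rfl⟩ := mem_pushL.1 hz1
          exact hcons y (List.mem_append_right _ hy) (List.mem_append_left _ (pushpull hm hz2))
        · obtain ⟨y, hy, m, hm, rfl⟩ := mem_pushL.1 hz1
          obtain ⟨y', hy', m', hm', he⟩ := mem_pushL.1 hz2
          rw [Nat.pair_eq_pair] at he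
          obtain ⟨rfl, he2⟩ := he
          have hl : y.unpair.1 < σ.length := by
            by_contra hcon
            rw [List.getElem?_eq_none (by omega)] at hm
            exact absurd hm (by simp)
          have he1 : y.unpair.1 = y'.unpair.1 := (List.getElem?_inj hl hσ).1 (hm.trans hm'.symm)
          have : y = y' := by
            rw [← Nat.pair_unpair y, ← Nat.pair_unpair y', he1, he2]
          exact hcq y hy (this ▸ hy')

end P1

end Pool.Agent.Helper578.JD
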