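import Pool.Agent.Helper578.JD.Main

/-!
The jump and the hierarchy have their usual characteristic properties.
-/

namespace Pool.Agent.Helper578.JD

open Encodable Oracle RE Defs
open Nat.Partrec (Code)

variable {R : ℕ → ℕ → Prop}

/-- A set is computably enumerable relative to `A` (the domain of a partial function which is
recursive in `A`) exactly if it is `REIn A`. -/
theorem dom_iff {A S : Set ℕ} :
    (∃ f : ℕ →. ℕ, RecursiveIn {chi A} f ∧ ∀ n, (f n).Dom ↔ n ∈ S) ↔ REIn A (· ∈ S) := by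
  constructor
  · rintro ⟨f, hf, h⟩
    have h1 := graph_of_recursiveIn (RecursiveIn.iff_nat.1 hf)
    refine (REIn.ex (S := fun (n y : ℕ) => y ∈ f n) h1).of_eq fun n => ?_
    rw [← h n, Part.dom_iff_mem]
  · rintro ⟨P, hP, hS⟩
    obtain ⟨q, hq, hPq⟩ := RE.re_iff.1 hP
    let cc : ℕ → Info := fun k => (Encodable.decode (α := List ℕ × List ℕ) k.unpair.1).getD ([], [])
    have hcc : Computable cc := Primrec.option_getD.to_comp.comp (by fun_prop) (by fun_prop)
    let Φ : ℕ → ℕ := fun m =>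
      (if q (m.unpair.1, cc m.unpair.2) m.unpair.2.unpair.2 = true then 0 else 1) +
      viol A (cc m.unpair.2) ((cc m.unpair.2).1.length + (cc m.unpair.2).2.length)
    have hq' : Computable fun m : ℕ => q (m.unpair.1, cc m.unpair.2) m.unpair.2.unpair.2 :=
      hq.comp (g := fun m : ℕ => (m.unpair.1, cc m.unpair.2))
        (h := fun m : ℕ => m.unpair.2.unpair.2) (by fun_prop) (by fun_prop)
    have hΦ1 : TotIn A fun m : ℕ =>
        (if q (m.unpair.1, cc m.unpair.2) m.unpair.2.unpair.2 = true then 0 else 1) :=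
      TotIn.of_comp (RE.cite (RE.cp_eq hq' (by fun_prop)) (by fun_prop) (by fun_prop))
    have hΦ2 : TotIn A fun m : ℕ => viol A (cc m.unpair.2)
        ((cc m.unpair.2).1.length + (cc m.unpair.2).2.length) := by
      have h1 : Computable fun m : ℕ => Nat.pair m.unpair.2.unpair.1
          ((cc m.unpair.2).1.length + (cc m.unpair.2).2.length) := by fun_prop
      refine Nat.RecursiveIn.of_eq (TotIn.viol.comp (TotIn.of_comp h1)) fun m => ?_
      simp only [Nat.unpair_pair]
      rfl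
    have hΦ : TotIn A Φ := by
      have h1 : Computable fun m : ℕ => m.unpair.1 + m.unpair.2 := by fun_prop
      refine Nat.RecursiveIn.of_eq ((TotIn.of_comp h1).comp (hΦ1.pair hΦ2)) fun m => ?_
      simp only [Nat.unpair_pair]
      rfl
    refine ⟨_, RecursiveIn.iff_nat.2 (Nat.RecursiveIn.rfind hΦ), fun n => ?_⟩
    refine Iff.trans ?_ (hS n).symm
    rw [Nat.rfind_dom]
    constructor
    · rintro ⟨k, hk, -⟩
      have h0 : Φ (Nat.pair n k) = 0 := by
        simpa using hk
      simp only [Φ, Nat.unpair_pair] at h0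
      have h1 : q (n, cc k) k.unpair.2 = true := by
        by_contra hcon
        rw [if_neg hcon] at h0
        omega
      have h2 : viol A (cc k) ((cc k).1.length + (cc k).2.length) = 0 := by omega
      exact ⟨cc k, (hPq _).2 ⟨_, h1⟩, (viol_eq_zero _).1 h2⟩
    · rintro ⟨c, hc, hok⟩
      obtain ⟨t, ht⟩ := (hPq (n, c)).1 hc
      refine ⟨Nat.pair (encode c) t, ?_, fun {m} _ => by simp⟩
      have hck : cc (Nat.pair (encode c) t) = c := by
        simp only [cc, Nat.unpair_pair]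
        rw [encodek, Option.getD_some]
      have h0 : Φ (Nat.pair n (Nat.pair (encode c) t)) = 0 := by
        simp only [Φ, Nat.unpair_pair, hck]
        rw [if_pos ht, (viol_eq_zero c).2 hok]
      simpa using h0

/-- The jump of `A` is complete for the sets which are computably enumerable relative to `A`: these
sets are exactly the sets which are many-one reducible to the jump of `A`. -/
theorem jump_complete {A S : Set ℕ} :
    (∃ f : ℕ →. ℕ, RecursiveIn {chi A} f ∧ ∀ n, (f n).Dom ↔ n ∈ S) ↔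
      ∃ g : ℕ → ℕ, Computable g ∧ ∀ n, n ∈ S ↔ g n ∈ jump A :=
  dom_iff.trans REIn_iff_jump

/-- At the least place the hierarchy is equivalent to `X`. -/
theorem H_least (hR : WellFounded R) (X : Set ℕ) {b : ℕ} (hb : ∀ c, ¬ R c b) :
    Red (H hR X b) X ∧ Red X (H hR X b) := by
  refine ⟨?_, Red_H hR X b⟩
  rw [H_eq]
  refine Red_join (Red.refl X) ?_
  have : {n : ℕ | R n.unpair.1 b ∧ n.unpair.2 ∈ jump (H hR X n.unpair.1)} = ∅ := by
    ext n
    simp [hb]
  rw [this]
  exact Red_empty X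

theorem jump_Red_of_lt (hR : WellFounded R) (X : Set ℕ) {d b : ℕ} (h : R d b) :
    Red (jump (H hR X d)) (H hR X b) := by
  rw [Red_iff]
  refine ⟨(REIn.mem (f := fun m => 2 * Nat.pair d m + 1) (by fun_prop)).of_eq fun m => ?_,
    (REIn.not_mem (f := fun m => 2 * Nat.pair d m + 1) (by fun_prop)).of_eq fun m => ?_⟩
  · rw [mem_H_odd]; exact and_iff_right h
  · rw [mem_H_odd]; exact not_congr (and_iff_right h)

/-- At a successor place the hierarchy is equivalent to the jump of the previous place. -/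
theorem H_succ (hR : WellFounded R) (hRc : ComputablePred fun p : ℕ × ℕ => R p.1 p.2)
    (htr : ∀ x y z, R x y → R y z → R x z) (X : Set ℕ) {b c : ℕ} (hc : R c b)
    (h : ∀ d, R d b → d = c ∨ R d c) :
    Red (H hR X b) (jump (H hR X c)) ∧ Red (jump (H hR X c)) (H hR X b) := by
  refine ⟨?_, jump_Red_of_lt hR X hc⟩
  rw [H_eq hR X b]
  refine Red_join ((Red_H hR X c).trans (Red_jump _)) ?_
  refine Red.trans ?_ (Red_join (Red.refl (jump (H hR X c))) (Red_jump (H hR X c)))
  have key : ∀ n : ℕ, (R n.unpair.1 b ∧ n.unpair.2 ∈ jump (H hR X n.unpair.1)) ↔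
      (n.unpair.1 = c ∧ 2 * n.unpair.2 ∈ join (jump (H hR X c)) (H hR X c)) ∨
      (R n.unpair.1 c ∧ 2 * (2 * Nat.pair n.unpair.1 n.unpair.2 + 1) + 1 ∈
        join (jump (H hR X c)) (H hR X c)) := by
    intro n
    rw [mem_join_even, mem_join_odd, mem_H_odd]
    constructor
    · rintro ⟨h1, h2⟩
      rcases h _ h1 with h3 | h3
      · exact Or.inl ⟨h3, h3 ▸ h2⟩
      · exact Or.inr ⟨h3, h3, h2⟩
    · rintro (⟨h3, h2⟩ | ⟨h3, -, h2⟩)
      · rw [h3]; exact ⟨hc, h2⟩
      · exact ⟨htr _ _ _ h3 hc, h2⟩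
  have key' : ∀ n : ℕ, ¬ (R n.unpair.1 b ∧ n.unpair.2 ∈ jump (H hR X n.unpair.1)) ↔
      (n.unpair.1 = c ∧ 2 * n.unpair.2 ∉ join (jump (H hR X c)) (H hR X c)) ∨
      (R n.unpair.1 c ∧ 2 * (2 * Nat.pair n.unpair.1 n.unpair.2 + 1) + 1 ∉
        join (jump (H hR X c)) (H hR X c)) ∨ ¬ R n.unpair.1 b := by
    intro n
    rw [mem_join_even, mem_join_odd, mem_H_odd]
    constructor
    · intro h4
      by_cases h1 : R n.unpair.1 b
      · have h5 : n.unpair.2 ∉ jump (H hR X n.unpair.1) := fun h6 => h4 ⟨h1, h6⟩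
        rcases h _ h1 with h3 | h3
        · exact Or.inl ⟨h3, h3 ▸ h5⟩
        · exact Or.inr (Or.inl ⟨h3, fun h6 => h5 h6.2⟩)
      · exact Or.inr (Or.inr h1)
    · rintro (⟨h3, h2⟩ | ⟨h3, h2⟩ | h2) ⟨h4, h5⟩
      · exact h2 (h3 ▸ h5)
      · exact h2 ⟨h3, h5⟩
      · exact h2 h4
  have r1 : ComputablePred fun n : ℕ => R n.unpair.1 c :=
    RE.cp_comp hRc (f := fun n : ℕ => (n.unpair.1, c)) (by fun_prop)
  have r2 : ComputablePred fun n : ℕ => R n.unpair.1 b :=
    RE.cp_comp hRc (f := fun n : ℕ => (n.unpair.1, b)) (by fun_prop)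
  rw [Red_iff]
  constructor
  · refine (REIn.or (REIn.and (REIn.of_re (RE.eq (f := fun n : ℕ => n.unpair.1)
      (g := fun _ => c) (by fun_prop) (by fun_prop)))
      (REIn.mem (f := fun n : ℕ => 2 * n.unpair.2) (by fun_prop)))
      (REIn.and (REIn.of_re (RE.of_comput r1)) (REIn.mem (f := fun n : ℕ =>
        2 * (2 * Nat.pair n.unpair.1 n.unpair.2 + 1) + 1) (by fun_prop)))).of_eq fun n => ?_
    exact (key n).symm
  · refine (REIn.or (REIn.and (REIn.of_re (RE.eq (f := fun n : ℕ => n.unpair.1)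
      (g := fun _ => c) (by fun_prop) (by fun_prop)))
      (REIn.not_mem (f := fun n : ℕ => 2 * n.unpair.2) (by fun_prop)))
      (REIn.or (REIn.and (REIn.of_re (RE.of_comput r1)) (REIn.not_mem (f := fun n : ℕ =>
        2 * (2 * Nat.pair n.unpair.1 n.unpair.2 + 1) + 1) (by fun_prop)))
      (REIn.of_re (RE.of_comput r2.not)))).of_eq fun n => ?_
    exact (key' n).symm

/-- At a limit place the hierarchy is equivalent to the join of the previous places. -/
theorem H_limit (hR : WellFounded R) (hRc : ComputablePred fun p : ℕ × ℕ => R p.1 p.2)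
    (X : Set ℕ) {b c : ℕ} (hc : R c b) (h : ∀ d, R d b → ∃ e, R d e ∧ R e b) :
    Red (H hR X b) {n | R n.unpair.1 b ∧ n.unpair.2 ∈ H hR X n.unpair.1} ∧
    Red {n | R n.unpair.1 b ∧ n.unpair.2 ∈ H hR X n.unpair.1} (H hR X b) := by
  set J : Set ℕ := {n | R n.unpair.1 b ∧ n.unpair.2 ∈ H hR X n.unpair.1} with hJ
  have r2 : ComputablePred fun n : ℕ => R n.unpair.1 b :=
    RE.cp_comp hRc (f := fun n : ℕ => (n.unpair.1, b)) (by fun_prop)
  have mJ : ∀ d m, Nat.pair d m ∈ J ↔ R d b ∧ m ∈ H hR X d := by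
    intro d m
    simp [hJ]
  constructor
  · rw [H_eq hR X b]
    refine Red_join ?_ ?_
    · rw [Red_iff]
      refine ⟨(REIn.mem (f := fun n => Nat.pair c (2 * n)) (by fun_prop)).of_eq fun n => ?_,
        (REIn.not_mem (f := fun n => Nat.pair c (2 * n)) (by fun_prop)).of_eq fun n => ?_⟩
      · rw [mJ, mem_H_even]; exact and_iff_right hc
      · rw [mJ, mem_H_even]; exact not_congr (and_iff_right hc)
    · have re : REPred fun x : ℕ × ℕ => R x.1.unpair.1 x.2 ∧ R x.2 b := by
        exact RE.and (RE.of_comput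
          (RE.cp_comp hRc (f := fun x : ℕ × ℕ => (x.1.unpair.1, x.2)) (by fun_prop)))
          (RE.of_comput (RE.cp_comp hRc (f := fun x : ℕ × ℕ => (x.2, b)) (by fun_prop)))
      rw [Red_iff]
      constructor
      · refine (REIn.ex (S := fun (n e : ℕ) => (R n.unpair.1 e ∧ R e b) ∧
          Nat.pair e (2 * Nat.pair n.unpair.1 n.unpair.2 + 1) ∈ J) (REIn.and
          (REIn.of_re re) (REIn.mem (f := fun x : ℕ × ℕ =>
            Nat.pair x.2 (2 * Nat.pair x.1.unpair.1 x.1.unpair.2 + 1)) (by fun_prop)))).and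
          (REIn.of_re (RE.of_comput r2)) |>.of_eq fun n => ?_
        show _ ↔ R n.unpair.1 b ∧ n.unpair.2 ∈ jump (H hR X n.unpair.1)
        constructor
        · rintro ⟨⟨e, ⟨h1, h2⟩, h3⟩, h4⟩
          rw [mJ, mem_H_odd] at h3
          exact ⟨h4, h3.2.2⟩
        · rintro ⟨h4, h5⟩
          obtain ⟨e, h1, h2⟩ := h _ h4
          exact ⟨⟨e, ⟨h1, h2⟩, (mJ _ _).2 ⟨h2, (mem_H_odd hR X _ _ _).2 ⟨h1, h5⟩⟩⟩, h4⟩
      · refine (REIn.or (REIn.of_re (RE.of_comput r2.not)) (REIn.ex (S := fun (n e : ℕ) =>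
          (R n.unpair.1 e ∧ R e b) ∧
          Nat.pair e (2 * Nat.pair n.unpair.1 n.unpair.2 + 1) ∉ J) (REIn.and
          (REIn.of_re re) (REIn.not_mem (f := fun x : ℕ × ℕ =>
            Nat.pair x.2 (2 * Nat.pair x.1.unpair.1 x.1.unpair.2 + 1)) (by fun_prop))))).of_eq
          fun n => ?_
        show _ ↔ ¬ (R n.unpair.1 b ∧ n.unpair.2 ∈ jump (H hR X n.unpair.1))
        constructor
        · rintro (h4 | ⟨e, ⟨h1, h2⟩, h3⟩) ⟨h5, h6⟩
          · exact h4 h5
          · exact h3 ((mJ _ _).2 ⟨h2, (mem_H_odd hR X _ _ _).2 ⟨h1, h6⟩⟩)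
        · intro h7
          by_cases h4 : R n.unpair.1 b
          · obtain ⟨e, h1, h2⟩ := h _ h4
            refine Or.inr ⟨e, ⟨h1, h2⟩, fun h3 => h7 ⟨h4, ?_⟩⟩
            rw [mJ, mem_H_odd] at h3
            exact h3.2.2
          · exact Or.inl h4
  · -- membership in a set is uniformly reducible to membership in its jump
    obtain ⟨g, hg, hg'⟩ := smn (α := ℕ) (β := Info) (P := fun m c => m ∈ c.1)
      (RE.mem_list (f := fun x : ℕ × Info => x.1) (l := fun x : ℕ × Info => x.2.1) (by fun_prop)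
        (by fun_prop))
    have hg2 : ∀ (A : Set ℕ) (m : ℕ), g m ∈ jump A ↔ m ∈ A := by
      intro A m
      constructor
      · rintro ⟨c, h1, h2⟩
        exact h1.1 m ((hg' m c).1 h2)
      · intro h1
        refine ⟨([m], []), ⟨?_, by simp⟩, (hg' m _).2 (by simp)⟩
        intro x hx
        rw [List.mem_singleton.1 hx]
        exact h1
    have hf : Computable fun n : ℕ => 2 * Nat.pair n.unpair.1 (g n.unpair.2) + 1 := by
      have h0 : Computable fun n : ℕ => g n.unpair.2 := hg.comp (by fun_prop)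
      fun_prop
    rw [Red_iff]
    refine ⟨(REIn.mem hf).of_eq fun n => ?_, (REIn.not_mem hf).of_eq fun n => ?_⟩
    · rw [mem_H_odd, hg2]; exact Iff.rfl
    · rw [mem_H_odd, hg2]; exact Iff.rfl

end Pool.Agent.Helper578.JD
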